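import Pool.Agent.Q20.RS.Lfn
import Pool.Agent.Q92.AR.All

/-!
# Meromorphic continuation of the Artin L-functions of all characters
-/

set_option autoImplicit false
set_option linter.unusedSectionVars false

namespace Pool.Agent.Q20.RS

open NumberField IsDedekindDomain Filter Topology Pool.Agent.H921R2.TatePole Pool.Agent.W353.NF
  Pool.Agent.Q5.BR Pool.Agent.H541R3.ART Pool.Agent.Q92.AR
open Pool.Agent.Q92.RT (induced class_expand)

section
variable {F M : Type} [Field F] [NumberField F] [Field M] [NumberField M] [Algebra F M]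

/-- the class functions whose L-function has a continuation -/
noncomputable def PL (F : Type) {M : Type} [Field F] [NumberField F] [Field M] [NumberField M]
    [Algebra F M] (T : Finset (HeightOneSpectrum (𝓞 M))) : AddSubgroup ((M ≃ₐ[F] M) → ℂ) where
  carrier := {χ | ∃ f : ℂ → ℂ, Continues f (artinLS T χ)}
  add_mem' := fun {a b} ha hb => by
    obtain ⟨f, hf⟩ := ha
    obtain ⟨f', hf'⟩ := hb
    exact ⟨_, (hf.mul hf').congr fun s hs => (artinLS_add T a b hs).symm⟩
  zero_mem' := by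
    refine ⟨fun _ => 1, fun s _ => MeromorphicAt.const _ _, fun s _ => ?_⟩
    have h : ∀ x, lTerm T (0 : (M ≃ₐ[F] M) → ℂ) s x = 0 := by
      intro x
      unfold lTerm
      split_ifs
      · rfl
      · rw [Pi.zero_apply, zero_div]
    unfold artinLS
    simp only [h, tsum_zero, Complex.exp_zero]
  neg_mem' := fun {a} ha => by
    obtain ⟨f, hf1, hf2⟩ := ha
    exact ⟨fun s => (f s)⁻¹, fun s hs => (hf1 s hs).fun_inv, fun s hs => by
      change (f s)⁻¹ = _
      rw [hf2 s hs, artinLS_neg]⟩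

theorem artinLS_lin (T : Finset (HeightOneSpectrum (𝓞 M))) (ψ : (M ≃ₐ[F] M) →* ℂˣ) (s : ℂ) :
    artinLS T (fun g => ((ψ g : ℂˣ) : ℂ)) s =
      LP {w : HeightOneSpectrum (𝓞 F) | ¬ InS T w} (fun w => ((ψ (frob M w) : ℂˣ) : ℂ)) s := by
  classical
  unfold artinLS LP
  congr 1
  refine tsum_congr fun x => ?_
  obtain ⟨w, n⟩ := x
  unfold lterm
  by_cases h : InS T w
  · have h2 : w ∉ {w : HeightOneSpectrum (𝓞 F) | ¬ InS T w} := fun h3 => h3 h
    rw [lTerm_of_mem h, if_neg h2]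
  · have h2 : w ∈ {w : HeightOneSpectrum (𝓞 F) | ¬ InS T w} := h
    rw [lTerm_of_not h, if_pos h2, map_pow, Units.val_pow_eq_pow_val]

theorem inS_finite (T : Finset (HeightOneSpectrum (𝓞 M))) :
    {w : HeightOneSpectrum (𝓞 F) | InS T w}.Finite := by
  classical
  refine (T.image fun w => w.under (𝓞 F)).finite_toSet.subset ?_
  rintro w ⟨u, hu, rfl⟩
  exact Finset.mem_coe.2 (Finset.mem_image_of_mem _ hu)

variable [IsGalois F M]

/-- linear characters -/
theorem lin_mem (T : Finset (HeightOneSpectrum (𝓞 M))) (ψ : (M ≃ₐ[F] M) →* ℂˣ) :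
    (fun g => ((ψ g : ℂˣ) : ℂ)) ∈ PL F T := by
  obtain ⟨N, hN, -, hray⟩ := recip F M ψ
  obtain ⟨f, hf1, hf2, -, -, -⟩ := hecke F N (art ψ) hN hray
  have hχ : ∀ w : HeightOneSpectrum (𝓞 F), ‖((ψ (frob M w) : ℂˣ) : ℂ)‖ ≤ 1 :=
    fun w => (norm_char ψ _).le
  have he : ∀ w : HeightOneSpectrum (𝓞 F),
      (((art ψ (Finsupp.single w 1)).toMul : ℂˣ) : ℂ) = ((ψ (frob M w) : ℂˣ) : ℂ) := by
    intro w
    rw [art_single, one_smul]
    rfl
  have h1 : ({w : HeightOneSpectrum (𝓞 F) | ¬ InS T w} \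
      {v : HeightOneSpectrum (𝓞 F) | (N : 𝓞 F) ∉ v.asIdeal}).Finite := by
    refine (mem_finite (F := F) hN).subset ?_
    rintro w ⟨-, hw⟩
    exact not_not.1 hw
  have h2 : ({v : HeightOneSpectrum (𝓞 F) | (N : 𝓞 F) ∉ v.asIdeal} \
      {w : HeightOneSpectrum (𝓞 F) | ¬ InS T w}).Finite := by
    refine (inS_finite (F := F) T).subset ?_
    rintro w ⟨-, hw⟩
    exact not_not.1 hw
  obtain ⟨E, hE1, hE2, hE3⟩ := LP_compare (χ := fun w => ((ψ (frob M w) : ℂˣ) : ℂ))
    (χ' := fun w => (((art ψ (Finsupp.single w 1)).toMul : ℂˣ) : ℂ)) h1 h2 hχ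
    (fun w => by rw [he]; exact hχ w) (fun w _ => (he w).symm)
  refine ⟨fun s => E s * f s, fun s hs => (hE1 s hs).fun_mul (hf1 s hs), fun s hs => ?_⟩
  change E s * f s = _
  rw [artinLS_lin, hE2 s hs, hf2 s hs, Lc_eq]

/-- the induced function in the two notations -/
theorem induced_eq_indj {K : Type} [Field K] [NumberField K] [Algebra K F] [Algebra K M]
    [IsScalarTower K F M] [IsGalois K M] (ψ : fixer K F M →* ℂˣ) (ψ' : (M ≃ₐ[F] M) →* ℂˣ)
    (hψ : ∀ (y : M ≃ₐ[F] M) (hy : y.restrictScalars K ∈ fixer K F M),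
      ψ ⟨y.restrictScalars K, hy⟩ = ψ' y) :
    induced (fixer K F M) ψ = indj (rsc K F M) fun y => ((ψ' y : ℂˣ) : ℂ) := by
  classical
  have hcard : (Nat.card (fixer K F M) : ℂ) = (Nat.card (M ≃ₐ[F] M) : ℂ) := by
    congr 1
    refine (Nat.card_eq_of_bijective (fun y : M ≃ₐ[F] M =>
      (⟨rsc K F M y, mem_range_rsc.1 ⟨y, rfl⟩⟩ : fixer K F M)) ⟨fun a b h => ?_, fun g => ?_⟩).symm
    · exact rsc_injective (congrArg Subtype.val h)
    · obtain ⟨y, hy⟩ := mem_range_rsc.2 g.2
      exact ⟨y, Subtype.ext hy⟩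
  funext g
  unfold induced indj
  rw [finsum_eq_sum_of_fintype, hcard]
  congr 1
  refine Finset.sum_congr rfl fun x _ => ?_
  split_ifs with h
  · obtain ⟨y, hy⟩ := mem_range_rsc.2 h
    have h7 : ∀ z : M ≃ₐ[F] M, (rsc K F M z = x⁻¹ * g * x) ↔ z = y := by
      intro z
      rw [← hy]
      exact ⟨fun e => rsc_injective e, fun e => by rw [e]⟩
    simp only [h7]
    rw [Finset.sum_ite_eq' Finset.univ, if_pos (Finset.mem_univ _)]
    have h8 : (⟨x⁻¹ * g * x, h⟩ : fixer K F M) = ⟨y.restrictScalars K, by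
        have h9 : y.restrictScalars K = x⁻¹ * g * x := hy
        rw [h9]
        exact h⟩ := Subtype.ext hy.symm
    rw [h8, hψ]
  · refine (Finset.sum_eq_zero fun z _ => if_neg fun e => h ?_).symm
    exact mem_range_rsc.1 ⟨z, e⟩

/-- induced linear characters -/
theorem ind_lin_mem {T : Finset (HeightOneSpectrum (𝓞 M))} (hT : Stable F T)
    (hR : ContainsRamified F T) (H : Subgroup (M ≃ₐ[F] M)) (ψ : H →* ℂˣ) :
    induced H ψ ∈ PL F T := by
  have h := fixer_fixedField (K := F) (M := M) H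
  have hgal : IsGalois (IntermediateField.fixedField H) M := inferInstance
  let ψ1 : fixer F (IntermediateField.fixedField H) M →* ℂˣ :=
    ψ.comp (Subgroup.inclusion (le_of_eq h))
  have h2 : induced (fixer F (IntermediateField.fixedField H) M) ψ1 = induced H ψ :=
    induced_congr h fun x hx hx' => rfl
  rw [← h2, induced_eq_indj ψ1 (ψ1.comp (resF F (IntermediateField.fixedField H) M))
    fun y hy => rfl]
  obtain ⟨f, hf⟩ := lin_mem T (ψ1.comp (resF F (IntermediateField.fixedField H) M))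
  refine ⟨f, hf.congr fun s hs => (artinLS_ind hT hR _ (fun x y => ?_) hs).symm⟩
  rw [map_mul, map_mul, map_inv, mul_comm, mul_inv_cancel_left]

/-- **The L-functions of all characters have a meromorphic continuation.** -/
theorem char_mem {T : Finset (HeightOneSpectrum (𝓞 M))} (hT : Stable F T)
    (hR : ContainsRamified F T) {U : Type} [AddCommGroup U] [Module ℂ U] [FiniteDimensional ℂ U]
    (ρ : Representation ℂ (M ≃ₐ[F] M) U) : ρ.character ∈ PL F T := by
  classical
  have h0 : (Nat.card (M ≃ₐ[F] M) : ℂ) ≠ 0 := by exact_mod_cast Nat.card_pos.ne'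
  have hirr : ∀ χ ∈ Irr (M ≃ₐ[F] M), χ ∈ PL F T := by
    intro χ hχ
    obtain ⟨ι, _, H, ψ, n, h⟩ := brauer _ χ hχ
    have h1 : χ = ∑ i, n i • induced (H i) (ψ i) := by
      funext g
      rw [h g, Finset.sum_apply]
      exact Finset.sum_congr rfl fun i _ => by rw [Pi.smul_apply, zsmul_eq_mul]
    rw [h1]
    exact (PL F T).sum_mem fun i _ => (PL F T).zsmul_mem (ind_lin_mem hT hR (H i) (ψ i)) (n i)
  have hm : ∀ χ ∈ Irr (M ≃ₐ[F] M), ∃ m : ℕ,
      ∑ g, ρ.character g * χ g⁻¹ = (m : ℂ) * Nat.card (M ≃ₐ[F] M) := by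
    rintro χ ⟨n, τ, -, rfl⟩
    let _ : Invertible (Nat.card (M ≃ₐ[F] M) : ℂ) := invertibleOfNonzero h0
    refine ⟨Module.finrank ℂ (Representation.IntertwiningMap τ ρ), ?_⟩
    rw [← Representation.card_inv_mul_sum_char_mul_char_eq_finrank τ ρ]
    field_simp
  choose! m hm using hm
  have h1 : ρ.character = ∑ χ ∈ irrF (M ≃ₐ[F] M), m χ • χ := by
    funext g
    rw [class_expand (θ := ρ.character) (m := fun χ => (m χ : ℂ))
      (fun g x => Representation.char_conj _ _ _) hm g, Finset.sum_apply]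
    exact Finset.sum_congr rfl fun χ _ => by rw [Pi.smul_apply, nsmul_eq_mul]
  rw [h1]
  exact (PL F T).sum_mem fun χ hχ => (PL F T).nsmul_mem (hirr χ (mem_irrF.1 hχ)) _

theorem leading_ne {T : Finset (HeightOneSpectrum (𝓞 M))} {χ : (M ≃ₐ[F] M) → ℂ}
    (h : χ ∈ PL F T) : leading T χ ≠ 0 := by
  have h := cont_spec (g := artinLS T χ) h
  exact (h.1 0 (Set.mem_univ _)).meromorphicTrailingCoeffAt_ne_zero
    (h.order_ne_top (fun s _ => Complex.exp_ne_zero _) 0)

theorem leading_add {T : Finset (HeightOneSpectrum (𝓞 M))} {χ χ' : (M ≃ₐ[F] M) → ℂ}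
    (h : χ ∈ PL F T) (h' : χ' ∈ PL F T) :
    leading T (χ + χ') = leading T χ * leading T χ' := by
  have ha := cont_spec (g := artinLS T χ) h
  have hb := cont_spec (g := artinLS T χ') h'
  have hab := cont_spec (g := artinLS T (χ + χ')) ((PL F T).add_mem h h')
  change meromorphicTrailingCoeffAt (cont (artinLS T (χ + χ'))) 0 =
    meromorphicTrailingCoeffAt (cont (artinLS T χ)) 0 *
      meromorphicTrailingCoeffAt (cont (artinLS T χ')) 0
  rw [← (ha.1 0 (Set.mem_univ _)).meromorphicTrailingCoeffAt_mul (hb.1 0 (Set.mem_univ _))]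
  refine meromorphicTrailingCoeffAt_congr_nhdsNE ?_
  exact hab.eventuallyEq (ha.mul hb) (fun s hs => artinLS_add T χ χ' hs) 0

/-- the leading coefficients -/
noncomputable def PhiL (F : Type) {M : Type} [Field F] [NumberField F] [Field M] [NumberField M]
    [Algebra F M] [IsGalois F M] (T : Finset (HeightOneSpectrum (𝓞 M))) :
    PL F T →+ Additive ℂˣ :=
  AddMonoidHom.mk' (fun f => Additive.ofMul (Units.mk0 (leading T f.1) (leading_ne f.2)))
    (fun a b => by
      rw [← ofMul_mul]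
      congr 1
      apply Units.ext
      exact leading_add a.2 b.2)

theorem phiL_val (T : Finset (HeightOneSpectrum (𝓞 M))) (f : PL F T) :
    (((PhiL F T f).toMul : ℂˣ) : ℂ) = leading T f.1 := rfl

end

section
variable {K F M : Type} [Field K] [NumberField K] [Field F] [NumberField F] [Field M] [NumberField M]
  [Algebra K F] [Algebra K M] [Algebra F M] [IsScalarTower K F M] [IsGalois K M] [IsGalois F M]

/-- inductivity of the leading coefficients -/
theorem leading_ind {T : Finset (HeightOneSpectrum (𝓞 M))} (hT : Stable K T)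
    (hR : ContainsRamified K T) {χ : (M ≃ₐ[F] M) → ℂ} (hχ : ∀ x y, χ (x⁻¹ * y * x) = χ y)
    (h : χ ∈ PL F T) : ∃ h' : indj (rsc K F M) χ ∈ PL K T,
      leading T χ = (((PhiL K T ⟨indj (rsc K F M) χ, h'⟩).toMul : ℂˣ) : ℂ) := by
  have h1 : indj (rsc K F M) χ ∈ PL K T := by
    obtain ⟨f, hf⟩ := h
    exact ⟨f, hf.congr fun s hs => (artinLS_ind hT hR χ hχ hs).symm⟩
  refine ⟨h1, ?_⟩
  rw [phiL_val]
  unfold leading
  exact meromorphicTrailingCoeffAt_congr_nhdsNE ((cont_spec h).eventuallyEq (cont_spec h1)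
    (fun s hs => (artinLS_ind hT hR χ hχ hs).symm) 0)

end

end Pool.Agent.Q20.RS
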