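import Pool.Agent.Q20.RS.Lve

/-!
# Stark's equality up to roots of unity at all sufficiently large levels
-/

set_option autoImplicit false
set_option linter.unusedSectionVars false

namespace Pool.Agent.Q20.RS

open NumberField IsDedekindDomain Pool.Agent.Q92.AR
open Pool.Agent.Q246.BI (Smooth IsCharacter induced)
open Pool.Agent.Q20.TR (bt)
open Representation (IntertwiningMap)

section
variable {K : Type} [Field K] [NumberField K]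

/-- the functions on the absolute Galois group which are in the given subgroup at all sufficiently
large levels -/
noncomputable def EvL (Q : ∀ ℓ : Level K, AddSubgroup ((ℓ.N ≃ₐ[K] ℓ.N) → ℂ)) :
    AddSubgroup ((bt K).fixingSubgroup → ℂ) where
  carrier := {f | ∃ N₀ : IntermediateField K (AlgebraicClosure K), FiniteDimensional K N₀ ∧
    ∀ ℓ : Level K, N₀ ≤ ℓ.N → ∃ f' ∈ Q ℓ, ∀ g, f g = f' (rN ℓ.N g)}
  add_mem' := fun {a b} ha hb => by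
    obtain ⟨N₁, h1, ha⟩ := ha
    obtain ⟨N₂, h2, hb⟩ := hb
    refine ⟨N₁ ⊔ N₂, IntermediateField.finiteDimensional_sup N₁ N₂, fun ℓ hN => ?_⟩
    obtain ⟨a', ha', ea⟩ := ha ℓ (le_sup_left.trans hN)
    obtain ⟨b', hb', eb⟩ := hb ℓ (le_sup_right.trans hN)
    exact ⟨a' + b', add_mem ha' hb', fun g => by rw [Pi.add_apply, Pi.add_apply, ea, eb]⟩
  zero_mem' := ⟨⊥, inferInstance, fun ℓ _ => ⟨0, zero_mem _, fun _ => rfl⟩⟩
  neg_mem' := fun {a} ha => by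
    obtain ⟨N₁, h1, ha⟩ := ha
    refine ⟨N₁, h1, fun ℓ hN => ?_⟩
    obtain ⟨a', ha', ea⟩ := ha ℓ hN
    exact ⟨-a', neg_mem ha', fun g => by rw [Pi.neg_apply, Pi.neg_apply, ea]⟩

/-- saturation -/
theorem evL_sat {P Q : ∀ ℓ : Level K, AddSubgroup ((ℓ.N ≃ₐ[K] ℓ.N) → ℂ)}
    (hs : ∀ (ℓ : Level K) (f : (ℓ.N ≃ₐ[K] ℓ.N) → ℂ) (m : ℕ), 0 < m → f ∈ P ℓ → m • f ∈ Q ℓ →
      f ∈ Q ℓ)
    {f : (bt K).fixingSubgroup → ℂ} (hf : f ∈ EvL P) {m : ℕ} (hm : 0 < m) (h : m • f ∈ EvL Q) :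
    f ∈ EvL Q := by
  obtain ⟨N₁, h1, ha⟩ := hf
  obtain ⟨N₂, h2, hb⟩ := h
  refine ⟨N₁ ⊔ N₂, IntermediateField.finiteDimensional_sup N₁ N₂, fun ℓ hN => ?_⟩
  obtain ⟨a', ha', ea⟩ := ha ℓ (le_sup_left.trans hN)
  obtain ⟨b', hb', eb⟩ := hb ℓ (le_sup_right.trans hN)
  refine ⟨a', hs ℓ a' m hm ha' ?_, ea⟩
  have h3 : m • a' = b' := by
    funext y
    obtain ⟨g, rfl⟩ := rN_surjective (N := ℓ.N) y
    have h4 := eb g
    rw [Pi.smul_apply, ea] at h4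
    exact h4
  rw [h3]
  exact hb'

/-- the virtual characters for which Stark's numbers of the conjugates are defined -/
noncomputable def PC {M : Type} [Field M] [NumberField M] [Algebra K M] [IsGalois K M]
    {T : Finset (HeightOneSpectrum (𝓞 M))} {hT : Stable K T} (θ : StarkMap hT) (σ : ℂ ≃+* ℂ) :
    AddSubgroup ((M ≃ₐ[K] M) → ℂ) where
  carrier := {f | f ∈ PP θ ∧ (fun g => σ (f g)) ∈ PP θ}
  add_mem' := fun {a b} ha hb => by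
    have h3 : (fun g => σ ((a + b) g)) = (fun g => σ (a g)) + fun g => σ (b g) :=
      funext fun g => map_add σ _ _
    exact ⟨add_mem ha.1 hb.1, h3 ▸ add_mem ha.2 hb.2⟩
  zero_mem' := by
    have h3 : (fun g => σ ((0 : (M ≃ₐ[K] M) → ℂ) g)) = 0 := funext fun g => map_zero σ
    refine ⟨zero_mem _, ?_⟩
    rw [h3]
    exact zero_mem _
  neg_mem' := fun {a} ha => by
    have h3 : (fun g => σ ((-a) g)) = -fun g => σ (a g) := funext fun g => map_neg σ _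
    exact ⟨neg_mem ha.1, h3 ▸ neg_mem ha.2⟩

/-- characters exist at all sufficiently large levels -/
theorem exists_lev {F : IntermediateField K (AlgebraicClosure K)} (hF : FiniteDimensional K F)
    {χ : F.fixingSubgroup → ℂ} (hχ : IsCharacter F χ) :
    ∃ N₀ : IntermediateField K (AlgebraicClosure K), FiniteDimensional K N₀ ∧ F ≤ N₀ ∧
      ∀ ℓ : Level K, N₀ ≤ ℓ.N → ∃ (n : ℕ) (ρ : Representation ℂ (ℓ.N ≃ₐ[sb ℓ.N F] ℓ.N) (Fin n → ℂ)),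
        HasChar ρ χ := by
  obtain ⟨n, τ, ⟨E, hE, hs⟩, hτ⟩ := hχ
  refine ⟨F ⊔ E, IntermediateField.finiteDimensional_sup F E, le_sup_left, fun ℓ hℓ => ?_⟩
  obtain ⟨ρ, hρ⟩ := exists_rep (le_sup_left.trans hℓ) τ fun g hg =>
    hs g (IntermediateField.fixingSubgroup_antitone (le_sup_right.trans hℓ) hg)
  exact ⟨n, ρ, fun y g hy => (hρ y g hy).trans (hτ g).symm⟩

theorem HasChar.conj {N F₀ : IntermediateField K (AlgebraicClosure K)} {U U' : Type}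
    [AddCommGroup U] [Module ℂ U] [AddCommGroup U'] [Module ℂ U']
    {ρ : Representation ℂ (N ≃ₐ[sb N F₀] N) U} {ρ' : Representation ℂ (N ≃ₐ[sb N F₀] N) U'}
    {χ : F₀.fixingSubgroup → ℂ} (h : HasChar ρ χ) {σ : ℂ ≃+* ℂ}
    (h' : ∀ y, ρ'.character y = σ (ρ.character y)) : HasChar ρ' fun g => σ (χ g) :=
  fun y g hy => by rw [h', h y g hy]

/-- the level functions of characters and their conjugates -/
theorem Level.exists_conj (ℓ : Level K) {F : IntermediateField K (AlgebraicClosure K)}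
    (hle : F ≤ ℓ.N) {χ : F.fixingSubgroup → ℂ} {U : Type} [AddCommGroup U] [Module ℂ U]
    [FiniteDimensional ℂ U] {ρ : Representation ℂ (ℓ.N ≃ₐ[sb ℓ.N F] ℓ.N) U} (h : HasChar ρ χ)
    (σ : ℂ ≃+* ℂ) : ∃ (f : (ℓ.N ≃ₐ[K] ℓ.N) → ℂ) (h1 : f ∈ PP ℓ.θ)
      (h2 : (fun g => σ (f g)) ∈ PP ℓ.θ), (∀ g, induced (bt K) F χ g = f (rN ℓ.N g)) ∧
        ℓ.A χ = val ℓ.θ ⟨f, h1⟩ ∧ ℓ.A (fun g => σ (χ g)) = val ℓ.θ ⟨_, h2⟩ := by
  obtain ⟨ρ', hρ'⟩ := RS.exists_conj ρ σ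
  obtain ⟨h1, -, e1⟩ := ℓ.A_eq hle h
  obtain ⟨h2, -, e2⟩ := ℓ.A_eq hle (h.conj hρ')
  have h3 : (fun g => σ (indj (rsc K (sb ℓ.N F) ℓ.N) ρ.character g)) =
      indj (rsc K (sb ℓ.N F) ℓ.N) ρ'.character := by
    rw [indj_conj]
    congr 1
    exact funext fun g => (hρ' g).symm
  refine ⟨_, h1, h3 ▸ h2, fun g => congrFun (ind_char hle h) g, e1, ?_⟩
  rw [e2]
  congr 1
  exact Subtype.ext h3.symm

/-- **Stark's equality up to roots of unity in terms of the induced characters** -/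
theorem stark_ev {F : IntermediateField K (AlgebraicClosure K)} (hF : FiniteDimensional K F)
    {χ : F.fixingSubgroup → ℂ} (hχ : IsCharacter F χ) (σ : ℂ ≃+* ℂ) :
    (∃ N₀ : IntermediateField K (AlgebraicClosure K), FiniteDimensional K N₀ ∧
      ∀ ℓ : Level K, N₀ ≤ ℓ.N → ∃ m : ℕ, 0 < m ∧ σ (ℓ.A χ) ^ m = ℓ.A (fun g => σ (χ g)) ^ m) ↔
      induced (bt K) F χ ∈ EvL fun ℓ => SR ℓ.θ σ := by
  obtain ⟨N₁, hN₁, hF₁, h1⟩ := exists_lev hF hχ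
  constructor
  · rintro ⟨N₂, hN₂, h2⟩
    refine ⟨N₁ ⊔ N₂, IntermediateField.finiteDimensional_sup N₁ N₂, fun ℓ hℓ => ?_⟩
    obtain ⟨n, ρ, hρ⟩ := h1 ℓ (le_sup_left.trans hℓ)
    obtain ⟨f, h3, h4, e1, e2, e3⟩ := ℓ.exists_conj (hF₁.trans (le_sup_left.trans hℓ)) hρ σ
    obtain ⟨m, hm, e4⟩ := h2 ℓ (le_sup_right.trans hℓ)
    exact ⟨f, ⟨h3, h4, m, hm, by rw [← e2, ← e3]; exact e4⟩, e1⟩
  · rintro ⟨N₂, hN₂, h2⟩
    refine ⟨N₁ ⊔ N₂, IntermediateField.finiteDimensional_sup N₁ N₂, fun ℓ hℓ => ?_⟩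
    obtain ⟨n, ρ, hρ⟩ := h1 ℓ (le_sup_left.trans hℓ)
    obtain ⟨f, h3, h4, e1, e2, e3⟩ := ℓ.exists_conj (hF₁.trans (le_sup_left.trans hℓ)) hρ σ
    obtain ⟨f', ⟨h5, h6, m, hm, e4⟩, e5⟩ := h2 ℓ (le_sup_right.trans hℓ)
    have h7 : f' = f := by
      funext y
      obtain ⟨g, rfl⟩ := rN_surjective (N := ℓ.N) y
      rw [← e5, ← e1]
    subst h7
    exact ⟨m, hm, by rw [e2, e3]; exact e4⟩

/-- **Algebraicity in terms of the induced characters** -/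
theorem alg_ev {F : IntermediateField K (AlgebraicClosure K)} (hF : FiniteDimensional K F)
    {χ : F.fixingSubgroup → ℂ} (hχ : IsCharacter F χ) :
    (∃ N₀ : IntermediateField K (AlgebraicClosure K), FiniteDimensional K N₀ ∧
      ∀ ℓ : Level K, N₀ ≤ ℓ.N → IsAlgebraic ℚ (ℓ.A χ)) ↔
      induced (bt K) F χ ∈ EvL fun ℓ => AG ℓ.θ := by
  obtain ⟨N₁, hN₁, hF₁, h1⟩ := exists_lev hF hχ
  constructor
  · rintro ⟨N₂, hN₂, h2⟩
    refine ⟨N₁ ⊔ N₂, IntermediateField.finiteDimensional_sup N₁ N₂, fun ℓ hℓ => ?_⟩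
    obtain ⟨n, ρ, hρ⟩ := h1 ℓ (le_sup_left.trans hℓ)
    obtain ⟨f, h3, h4, e1, e2, e3⟩ :=
      ℓ.exists_conj (hF₁.trans (le_sup_left.trans hℓ)) hρ (RingEquiv.refl ℂ)
    exact ⟨f, ⟨h3, by rw [← e2]; exact h2 ℓ (le_sup_right.trans hℓ)⟩, e1⟩
  · rintro ⟨N₂, hN₂, h2⟩
    refine ⟨N₁ ⊔ N₂, IntermediateField.finiteDimensional_sup N₁ N₂, fun ℓ hℓ => ?_⟩
    obtain ⟨n, ρ, hρ⟩ := h1 ℓ (le_sup_left.trans hℓ)
    obtain ⟨f, h3, h4, e1, e2, e3⟩ :=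
      ℓ.exists_conj (hF₁.trans (le_sup_left.trans hℓ)) hρ (RingEquiv.refl ℂ)
    obtain ⟨f', ⟨h5, e4⟩, e5⟩ := h2 ℓ (le_sup_right.trans hℓ)
    have h7 : f' = f := by
      funext y
      obtain ⟨g, rfl⟩ := rN_surjective (N := ℓ.N) y
      rw [← e5, ← e1]
    subst h7
    rw [e2]
    exact e4

theorem ind_pc {F : IntermediateField K (AlgebraicClosure K)} (hF : FiniteDimensional K F)
    {χ : F.fixingSubgroup → ℂ} (hχ : IsCharacter F χ) (σ : ℂ ≃+* ℂ) :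
    induced (bt K) F χ ∈ EvL fun ℓ => PC ℓ.θ σ := by
  obtain ⟨N₁, hN₁, hF₁, h1⟩ := exists_lev hF hχ
  refine ⟨N₁, hN₁, fun ℓ hℓ => ?_⟩
  obtain ⟨n, ρ, hρ⟩ := h1 ℓ hℓ
  obtain ⟨f, h3, h4, e1, e2, e3⟩ := ℓ.exists_conj (hF₁.trans hℓ) hρ σ
  exact ⟨f, ⟨h3, h4⟩, e1⟩

/-- **Reduction of Stark's equality up to roots of unity.** -/
theorem stark_of_mem {F : IntermediateField K (AlgebraicClosure K)} (hF : FiniteDimensional K F)
    {χ : F.fixingSubgroup → ℂ} (hχ : IsCharacter F χ) (σ : ℂ ≃+* ℂ) {m : ℕ} (hm : 0 < m)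
    {A : Set ((bt K).fixingSubgroup → ℂ)}
    (hA : m • induced (bt K) F χ ∈ AddSubgroup.closure A)
    (h : ∀ f ∈ A, f ∈ EvL fun ℓ : Level K => SR ℓ.θ σ) :
    ∃ N₀ : IntermediateField K (AlgebraicClosure K), FiniteDimensional K N₀ ∧
      ∀ ℓ : Level K, N₀ ≤ ℓ.N → ∃ m : ℕ, 0 < m ∧ σ (ℓ.A χ) ^ m = ℓ.A (fun g => σ (χ g)) ^ m := by
  rw [stark_ev hF hχ σ]
  exact evL_sat (P := fun ℓ => PC ℓ.θ σ) (fun ℓ f m hm hf h => SR_sat hf.1 hf.2 hm h)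
    (ind_pc hF hχ σ) hm ((AddSubgroup.closure_le _).2 h hA)

/-- **Reduction of algebraicity.** -/
theorem alg_of_mem {F : IntermediateField K (AlgebraicClosure K)} (hF : FiniteDimensional K F)
    {χ : F.fixingSubgroup → ℂ} (hχ : IsCharacter F χ) {m : ℕ} (hm : 0 < m)
    {A : Set ((bt K).fixingSubgroup → ℂ)}
    (hA : m • induced (bt K) F χ ∈ AddSubgroup.closure A)
    (h : ∀ f ∈ A, f ∈ EvL fun ℓ : Level K => AG ℓ.θ) :
    ∃ N₀ : IntermediateField K (AlgebraicClosure K), FiniteDimensional K N₀ ∧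
      ∀ ℓ : Level K, N₀ ≤ ℓ.N → IsAlgebraic ℚ (ℓ.A χ) := by
  rw [alg_ev hF hχ]
  exact evL_sat (P := fun ℓ => PC ℓ.θ (RingEquiv.refl ℂ))
    (fun ℓ f m hm hf h => AG_sat hf.1 hm h)
    (ind_pc hF hχ (RingEquiv.refl ℂ)) hm ((AddSubgroup.closure_le _).2 h hA)

/-- **Product formulas.** -/
theorem prod_of_mem {F : IntermediateField K (AlgebraicClosure K)} (hF : FiniteDimensional K F)
    {χ : F.fixingSubgroup → ℂ} (hχ : IsCharacter F χ) (m : ℕ) {l : List (Term K)}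
    (hl : ∀ t ∈ l, FiniteDimensional K t.F ∧ Smooth t.F t.ψ)
    (hA : (l.map fun t => t.e • induced (bt K) t.F t.fn).sum = m • induced (bt K) F χ) :
    ∃ N₀ : IntermediateField K (AlgebraicClosure K), FiniteDimensional K N₀ ∧
      ∀ ℓ : Level K, N₀ ≤ ℓ.N →
        (∀ s : ℂ, 1 < s.re → ℓ.L χ s ^ m = (l.map fun t => ℓ.L t.fn s ^ t.e).prod) ∧
        ℓ.A χ ^ m = (l.map fun t => ℓ.A t.fn ^ t.e).prod := by
  obtain ⟨N₁, hN₁, hF₁, h1⟩ := exists_lev hF hχ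
  obtain ⟨N₂, hN₂, h2⟩ := exists_level l hl
  refine ⟨N₁ ⊔ N₂, IntermediateField.finiteDimensional_sup N₁ N₂, fun ℓ hℓ => ?_⟩
  obtain ⟨n, ρ, hρ⟩ := h1 ℓ (le_sup_left.trans hℓ)
  obtain ⟨f, hf, e1, e2, e3⟩ := ℓ.exists_fn (hF₁.trans (le_sup_left.trans hℓ)) hρ
  obtain ⟨h3, e4, e5⟩ := ℓ.prod l (h2 ℓ.N (le_sup_right.trans hℓ)) (m • f) fun g => by
    rw [hA, Pi.smul_apply, Pi.smul_apply, e1]
  refine ⟨fun s hs => ?_, ?_⟩
  · rw [e3 s hs, ← artinLS_nsmul _ _ _ hs, e5 s hs]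
  · rw [e2, ← e4, ← val_nsmul]
    rfl

end

end Pool.Agent.Q20.RS
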