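import Pool.Agent.Q20.RS.Bas
import Pool.Agent.Q20.TR.Rig

/-!
# Comparison of the definitions
-/

set_option autoImplicit false
set_option linter.unusedSectionVars false

namespace Pool.Agent.Q20.RS

open NumberField
open Pool.Agent.Q246.BI (Smooth IsCharacter induced)
open Pool.Agent.Q20.LG (RChar)

section
variable {K : Type} [Field K] [NumberField K]

theorem char_iff {F : Sub K} (χ : Fn F) : Char χ ↔ IsCharacter F χ := Iff.rfl

theorem smt_iff {F : Sub K} {X : Type} [Group X] (τ : GalF F →* X) : Smt τ ↔ Smooth F τ := Iff.rfl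

theorem ind_eq (F F' : Sub K) (χ : Fn F') : ind F F' χ = induced F F' χ := rfl

theorem virt_iff {F : Sub K} (hF : FinExt F) (f : Fn F) : Virt f ↔ f ∈ RChar F.fixingSubgroup := by
  have hfd : FiniteDimensional K F := hF
  have h : {χ : GalF F → ℂ | Char (F := F) χ} = {χ | Pool.Agent.Q20.LG.IsChar χ} :=
    Set.ext fun χ => Pool.Agent.Q20.LG.isChar_iff F χ
  unfold Virt
  rw [h]
  exact Iff.rfl

theorem plc_iff (p : ℕ) (w : AlgebraicClosure K → ℝ) : Plc p w ↔ Pool.Agent.Q273.SP.IsPl p w :=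
  ⟨fun h => ⟨h.nonneg, h.zero, h.mul, h.add, h.prime⟩,
    fun h => ⟨h.nonneg, h.zero, h.mul, h.add, h.prime⟩⟩

theorem ccj_iff (c : Gal(AlgebraicClosure K/K)) : CCj c ↔ Pool.Agent.Q246.RP.IsCC c := Iff.rfl

theorem dcm_iff (w : AlgebraicClosure K → ℝ) (g : Gal(AlgebraicClosure K/K)) :
    Dcm w g ↔ Pool.Agent.Q273.SP.Dec w g := Iff.rfl

theorem inr_iff (w : AlgebraicClosure K → ℝ) (g : Gal(AlgebraicClosure K/K)) :
    Inr w g ↔ Pool.Agent.Q273.SP.Ine w g := Iff.rfl

end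

end Pool.Agent.Q20.RS
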