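import Pool.Agent.Q20.RS.Lvd

/-!
# Class group characters: definitions and statements
-/

set_option autoImplicit false
set_option linter.unusedSectionVars false

namespace Pool.Agent.Q20.RS

open NumberField IsDedekindDomain
open scoped Classical

section defs
variable {K : Type} [Field K]

/-- **Class group characters**: linear characters `ψ` of `Gal(K̄/F)`, `F` totally complex of degree
divisible by `M` over `K`, such that `ψ` is trivial on the inertia groups of all finite places and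
on the decomposition groups of all places above the primes in `S`, and the completions of `F` above
the primes in `S` contain those of `L` -/
structure ClassGroup (M : ℕ) (S : Finset ℕ) (L : Sub K) {F : Sub K} (ψ : Lin F) : Prop where
  complex : IsEmpty (F →+* ℝ)
  degree : M ∣ Module.finrank K F
  inertia : ∀ p : ℕ, p.Prime → ∀ w : AlgebraicClosure K → ℝ, Plc p w → ∀ g : GalF F,
    Inr w (g : Gal(AlgebraicClosure K/K)) → ψ.hom g = 1
  split : ∀ p ∈ S, p.Prime → ∀ w : AlgebraicClosure K → ℝ, Plc p w → ∀ g : GalF F,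
    Dcm w (g : Gal(AlgebraicClosure K/K)) → ψ.hom g = 1
  completion : ∀ p ∈ S, p.Prime → ∀ w : AlgebraicClosure K → ℝ, Plc p w →
    ∀ g ∈ F.fixingSubgroup, Dcm w g → g ∈ L.fixingSubgroup

/-- A quadratic or trivial character of `Gal(K̄/K)` with the value `s = ±1` at all complex
conjugations -/
structure Sign (s : ℂˣ) (ε : Gal(AlgebraicClosure K/K) →* ℂˣ) : Prop where
  smooth : ∃ E : Sub K, FinExt E ∧ ∀ g ∈ E.fixingSubgroup, ε g = 1
  sq : ∀ g, ε g * ε g = 1
  cc : ∀ c, CCj c → ε c = s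

/-- **Linear characters of parity `s` with one bad prime**: `ψ` is a linear character over a totally
real field `F`, `ψ(c) = s` for all complex conjugations `c`, and there is a prime `p` such that `ε ψ`
is trivial on the inertia groups of all finite places which are not above `p` and on the
decomposition groups of the places above the primes in `S` other than `p` -/
structure OnePrime (s : ℂˣ) (ε : Gal(AlgebraicClosure K/K) →* ℂˣ) (S : Finset ℕ) {F : Sub K}
    (ψ : Lin F) : Prop where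
  real : IsTotallyReal F
  parity : ∀ c : GalF F, CCj (c : Gal(AlgebraicClosure K/K)) → ψ.hom c = s
  bad : ∃ p : ℕ, p.Prime ∧ ∀ q : ℕ, q.Prime → q ≠ p → ∀ w : AlgebraicClosure K → ℝ, Plc q w →
    ∀ g : GalF F,
      (Inr w (g : Gal(AlgebraicClosure K/K)) → ε g * ψ.hom g = 1) ∧
      (q ∈ S → Dcm w (g : Gal(AlgebraicClosure K/K)) → ε g * ψ.hom g = 1)

/-- The kinds of linear characters: trivial characters, class group characters, characters of parity
`s` with one bad prime -/
def Kind (s : ℂˣ) (ε : Gal(AlgebraicClosure K/K) →* ℂˣ) (M : ℕ) (S : Finset ℕ) (L : Sub K)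
    {F : Sub K} (ψ : Lin F) : Prop :=
  ψ.hom = 1 ∨ ClassGroup M S L ψ ∨ OnePrime s ε S ψ

/-- the characters of `Gal(K̄/K)` induced by linear characters of these kinds -/
def IndKind (s : ℂˣ) (ε : Gal(AlgebraicClosure K/K) →* ℂˣ) (M : ℕ) (S : Finset ℕ) (L : Sub K) :
    Set (Fn (base K)) :=
  {f | ∃ (F : Sub K) (ψ : Lin F), FinExt F ∧ Kind s ε M S L ψ ∧ f = ind (base K) F ψ.fn}

end defs

/-- a linear character with an exponent -/
structure Factor (K : Type) [Field K] : Type where
  /-- the field -/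
  F : Sub K
  fin : FinExt F
  /-- the character -/
  ψ : Lin F
  /-- the exponent -/
  e : ℤ

/-- for all sufficiently large levels -/
def Eventually {K : Type} [Field K] [NumberField K] (P : Lvl K → Prop) : Prop :=
  ∃ N₀ : Sub K, FinExt N₀ ∧ ∀ ℓ : Lvl K, N₀ ≤ ℓ.N → P ℓ

/-- Stark's equality up to roots of unity -/
def StarkRoots {K : Type} [Field K] [NumberField K] {F : Sub K} (χ : Fn F) (σ : ℂ ≃+* ℂ) : Prop :=
  Eventually fun ℓ : Lvl K => ∃ m : ℕ, 0 < m ∧ σ (ℓ.A χ) ^ m = ℓ.A (conj σ χ) ^ m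

/-- Stark's number is algebraic -/
def AlgNumber {K : Type} [Field K] [NumberField K] {F : Sub K} (χ : Fn F) : Prop :=
  Eventually fun ℓ : Lvl K => IsAlgebraic ℚ (ℓ.A χ)

/-- (0) The numbers `A_S(χ, φ)` and L-functions `L_S(s, χ)` of characters `χ` of `Gal(K̄/F)` at all
sufficiently large levels are those of the representations of `Gal(N/F)` with character `χ` -/
def WellDefined (K : Type) [Field K] [NumberField K] : Prop :=
  ∀ F : Sub K, FinExt F → ∀ χ : Fn F, Char χ → Eventually fun ℓ : Lvl K =>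
    (∃ (n : ℕ) (ρ : Representation ℂ (NFd ℓ.N ≃ₐ[SFd ℓ.N F] NFd ℓ.N) (Fin n → ℂ)), HasCh ρ χ) ∧
    ∀ (U : Type) [AddCommGroup U] [Module ℂ U] [FiniteDimensional ℂ U]
      (ρ : Representation ℂ (NFd ℓ.N ≃ₐ[SFd ℓ.N F] NFd ℓ.N) U), HasCh ρ χ →
        ℓ.A χ = starkA (ℓ.map F) ρ ∧ ℓ.A χ ≠ 0 ∧ ∀ z : ℂ, ℓ.L χ z = artinLS ℓ.T ρ.character z

/-- (1) **The induction theorem.** Parities `s = ±1`; a character `ε` exists. -/
def Induction (K : Type) [Field K] [NumberField K] : Prop :=
  ∀ s : ℂˣ, s = 1 ∨ s = -1 →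
    (∃ ε : Gal(AlgebraicClosure K/K) →* ℂˣ, Sign s ε) ∧
    ∀ ε : Gal(AlgebraicClosure K/K) →* ℂˣ, Sign s ε → ∀ (M : ℕ) (S : Finset ℕ) (L : Sub K),
      0 < M → FinExt L → ∀ f : Fn (base K), Virt f → Multiple f (IndKind s ε M S L)

/-- (2) **Product formulas** for Artin L-functions and Stark's numbers -/
def Products (K : Type) [Field K] [NumberField K] : Prop :=
  ∀ s : ℂˣ, s = 1 ∨ s = -1 → ∀ ε : Gal(AlgebraicClosure K/K) →* ℂˣ, Sign s ε →
    ∀ (M : ℕ) (S : Finset ℕ) (L : Sub K), 0 < M → FinExt L →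
      ∀ F : Sub K, FinExt F → ∀ χ : Fn F, Char χ →
        ∃ (m : ℕ) (l : List (Factor K)), 0 < m ∧ (∀ t ∈ l, Kind s ε M S L t.ψ) ∧
          Eventually fun ℓ : Lvl K =>
            (∀ z : ℂ, 1 < z.re → ℓ.L χ z ^ m = (l.map fun t => ℓ.L t.ψ.fn z ^ t.e).prod) ∧
            ℓ.A χ ^ m = (l.map fun t => ℓ.A t.ψ.fn ^ t.e).prod

/-- (3) **Stark's conjecture up to roots of unity**, granted for trivial characters (class number
formula), totally odd characters (Siegel) and class group characters -/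
def Stark (K : Type) [Field K] [NumberField K] : Prop :=
  ∀ (σ : ℂ ≃+* ℂ) (ε : Gal(AlgebraicClosure K/K) →* ℂˣ), Sign (-1) ε →
    ∀ (M : ℕ) (S : Finset ℕ) (L : Sub K), 0 < M → FinExt L →
      (∀ F : Sub K, FinExt F → ∀ ψ : Lin F, Kind (-1) ε M S L ψ → StarkRoots ψ.fn σ) →
      ∀ F : Sub K, FinExt F → ∀ χ : Fn F, Char χ → StarkRoots χ σ

/-- (4) **Algebraicity** of Stark's numbers, granted for the same characters -/
def Algebraicity (K : Type) [Field K] [NumberField K] : Prop :=
  ∀ ε : Gal(AlgebraicClosure K/K) →* ℂˣ, Sign (-1) ε →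
    ∀ (M : ℕ) (S : Finset ℕ) (L : Sub K), 0 < M → FinExt L →
      (∀ F : Sub K, FinExt F → ∀ ψ : Lin F, Kind (-1) ε M S L ψ → AlgNumber ψ.fn) →
      ∀ F : Sub K, FinExt F → ∀ χ : Fn F, Char χ → AlgNumber χ

end Pool.Agent.Q20.RS
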