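import Pool.Agent.Q20.RS.Prt
import Pool.Agent.Q20.RS.Cgd
import Pool.Agent.Q20.RS.BasEq
import Pool.Agent.Q20.TR.Par

/-!
# Class group characters: proofs
-/

set_option autoImplicit false
set_option linter.unusedSectionVars false

namespace Pool.Agent.Q20.RS

open NumberField IsDedekindDomain
open Pool.Agent.Q246.BI (Smooth IsCharacter induced)
open Pool.Agent.Q246.RP (IsCC)
open Pool.Agent.Q273.SP (IsPl Dec Ine)
open Pool.Agent.Q20.LG (RChar)
open Pool.Agent.Q20.TR (GenR GenS UnrS Big Even Quad)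
open scoped Classical

section
variable {K : Type} [Field K] [NumberField K]

theorem Sign.quad {s : ℂˣ} {ε : Gal(AlgebraicClosure K/K) →* ℂˣ} (h : Sign s ε) : Quad ε :=
  ⟨h.smooth, h.sq⟩

theorem exists_sign [IsTotallyReal K] {s : ℂˣ} (hs : s = 1 ∨ s = -1) :
    ∃ ε : Gal(AlgebraicClosure K/K) →* ℂˣ, Sign s ε := by
  rcases hs with rfl | rfl
  · exact ⟨1, Pool.Agent.Q20.TR.quad_one.smooth, Pool.Agent.Q20.TR.quad_one.sq, fun _ _ => rfl⟩
  · exact ⟨Pool.Agent.Q20.TR.odd K, Pool.Agent.Q20.TR.quad_odd.smooth,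
      Pool.Agent.Q20.TR.quad_odd.sq, fun _ hc => Pool.Agent.Q20.TR.odd_cc hc⟩

/-- the twist of a linear character -/
noncomputable def twist {ε : Gal(AlgebraicClosure K/K) →* ℂˣ} (hε : Quad ε) (F : Sub K)
    (ψ : F.fixingSubgroup →* ℂˣ) (hψ : Smooth F ψ) : Lin F :=
  ⟨Pool.Agent.Q20.TR.twl ε F ψ, Pool.Agent.Q20.TR.twl_smooth hε F hψ⟩

theorem onePrime_twist {s : ℂˣ} {ε : Gal(AlgebraicClosure K/K) →* ℂˣ} (hε : Sign s ε)
    {S : Finset ℕ} {F : Sub K} (hr : IsTotallyReal F) {p : ℕ} (hp : p.Prime)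
    {ψ : F.fixingSubgroup →* ℂˣ} (hψ : Smooth F ψ) (he : Even F ψ) (hu : UnrS {p} S F ψ) :
    OnePrime s ε S (twist hε.quad F ψ hψ) := by
  have key : ∀ g : F.fixingSubgroup, ε g * (twist hε.quad F ψ hψ).hom g = ψ g := by
    intro g
    change ε g * (ε g * ψ g) = ψ g
    rw [← mul_assoc, hε.sq, one_mul]
  refine ⟨hr, fun c hc => ?_, p, hp, fun q hq hqp w hw g => ?_⟩
  · change ε c * ψ c = s
    rw [hε.cc _ hc, he c hc, mul_one]
  · rw [key]
    exact hu q hq hqp w ((plc_iff q w).1 hw) g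

theorem class_group {M : ℕ} {S : Finset ℕ} {L : Sub K} {F : Sub K} (ha : IsEmpty (F →+* ℝ))
    (hb : M ∣ Module.finrank K F) (hc : Big ∅ S L F) {ψ : F.fixingSubgroup →* ℂˣ}
    (hs : Smooth F ψ) (hd : UnrS ∅ S F ψ) : ClassGroup M S L (F := F) ⟨ψ, hs⟩ :=
  ⟨ha, hb, fun p hp w hw g hg => (hd p hp (Set.notMem_empty p) w ((plc_iff p w).1 hw) g).1 hg,
    fun p hpS hp w hw g hg => (hd p hp (Set.notMem_empty p) w ((plc_iff p w).1 hw) g).2 hpS hg,
    fun p hpS hp w hw g hg hgw => hc p hp (Set.notMem_empty p) hpS w ((plc_iff p w).1 hw) g hg hgw⟩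

/-- the trivial character -/
noncomputable def one (F : Sub K) : Lin F := ⟨1, ⊥, inferInstanceAs (FiniteDimensional K (⊥ : Sub K)),
  fun _ _ => rfl⟩

theorem fin_base : FinExt (base K) := by
  unfold FinExt base
  infer_instance

theorem induction [IsTotallyReal K] : Induction K := by
  intro s hs
  refine ⟨exists_sign hs, fun ε hε M S L hM hL f hf => ?_⟩
  have hLfd : FiniteDimensional K L := hL
  obtain ⟨m, hm, h1⟩ := Pool.Agent.Q20.TR.induction_theorem hM hε.quad S L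
    ((virt_iff fin_base f).1 hf)
  refine ⟨m, hm, AddSubgroup.closure_mono ?_ h1⟩
  rintro f (hf | hf)
  · obtain ⟨⟨p, hp⟩, F', ψ, hfd, hr, hs, he, hu, rfl⟩ := Set.mem_iUnion.1 hf
    exact ⟨F', twist hε.quad F' ψ hs, hfd, Or.inr (Or.inr (onePrime_twist hε hr hp hs he hu)), rfl⟩
  · obtain ⟨F', ψ, hle, hfd, hs, hc, rfl⟩ := hf
    rcases hc with ⟨ha, hb, hc, hd⟩ | rfl
    · exact ⟨F', ⟨ψ, hs⟩, hfd, Or.inr (Or.inl (class_group ha hb hc hs hd)), rfl⟩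
    · exact ⟨F', one F', hfd, Or.inl rfl, rfl⟩

theorem virt_ind {F : Sub K} (hF : FinExt F) {χ : Fn F} (hχ : Char χ) :
    Virt (ind (base K) F χ) := by
  have hfd : FiniteDimensional K (base K) := fin_base
  exact (virt_iff fin_base _).2 (AddSubgroup.subset_closure
    ((Pool.Agent.Q20.LG.isChar_iff (base K) _).1
      (Pool.Agent.Q20.LG.isCharacter_ind (base K) F hF hχ)))

theorem well_defined : WellDefined K := by
  intro F hF χ hχ
  obtain ⟨N₀, h1, h2, h3⟩ := exists_lev hF hχ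
  refine ⟨N₀, h1, fun ℓ hℓ => ⟨h3 ℓ.old hℓ, fun U _ _ _ ρ hρ => ?_⟩⟩
  obtain ⟨h4, h5, h6⟩ := ℓ.old.A_eq (h2.trans hℓ) hρ
  refine ⟨h5, fun h => ?_, fun z => ?_⟩
  · exact val_ne _ _ (h6.symm.trans h)
  · have h7 : ℓ.fn χ = ρ.character := ℓ.old.fn_eq (h2.trans hℓ) hρ
    exact congrArg (fun f => artinLS ℓ.T f z) h7

/-- conversion of the notion of levels -/
theorem eventually_iff {P : Lvl K → Prop} {Q : Level K → Prop} (h : ∀ ℓ : Lvl K, Q ℓ.old → P ℓ)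
    (hQ : ∃ N₀ : Sub K, FiniteDimensional K N₀ ∧ ∀ ℓ : Level K, N₀ ≤ ℓ.N → Q ℓ) : Eventually P := by
  obtain ⟨N₀, h1, h2⟩ := hQ
  exact ⟨N₀, h1, fun ℓ hℓ => h ℓ (h2 ℓ.old hℓ)⟩

theorem eventually_old {P : Lvl K → Prop} {Q : Level K → Prop} (h : ∀ ℓ : Level K, P ℓ.new → Q ℓ)
    (hP : Eventually P) : ∃ N₀ : Sub K, FiniteDimensional K N₀ ∧ ∀ ℓ : Level K, N₀ ≤ ℓ.N → Q ℓ := by
  obtain ⟨N₀, h1, h2⟩ := hP
  exact ⟨N₀, h1, fun ℓ hℓ => h ℓ (h2 ℓ.new hℓ)⟩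

theorem products [IsTotallyReal K] : Products K := by
  intro s hs ε hε M S L hM hL F hF χ hχ
  obtain ⟨m, hm, h1⟩ := (induction s hs).2 ε hε M S L hM hL _ (virt_ind hF hχ)
  obtain ⟨l, hl, e⟩ := exists_list
    (P := fun F ψ => FinExt F ∧ ∃ h : Smooth F ψ, Kind s ε M S L (F := F) ⟨ψ, h⟩)
    (AddSubgroup.closure_mono (by
      rintro f ⟨F', ψ, hF', hψ, rfl⟩
      exact ⟨F', ψ.hom, ⟨hF', ψ.smooth, hψ⟩, rfl⟩) h1)
  obtain ⟨N₀, h2, h3⟩ := prod_of_mem hF hχ m (fun t ht => ⟨(hl t ht).1, (hl t ht).2.choose⟩) e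
  let fac : {t // t ∈ l} → Factor K := fun t =>
    { F := t.1.F
      fin := (hl t.1 t.2).1
      ψ := { hom := t.1.ψ, smooth := (hl t.1 t.2).2.choose }
      e := t.1.e }
  refine ⟨m, l.attach.map fac, hm, fun t ht => ?_, N₀, h2, fun ℓ hℓ => ?_⟩
  · obtain ⟨t', -, rfl⟩ := List.mem_map.1 ht
    exact (hl t'.1 t'.2).2.choose_spec
  · obtain ⟨e1, e2⟩ := h3 ℓ.old hℓ
    refine ⟨fun z hz => ?_, ?_⟩
    · refine (e1 z hz).trans ?_
      rw [List.map_map]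
      conv_lhs => rw [← List.attach_map_subtype_val l]
      rw [List.map_map]
      rfl
    · refine e2.trans ?_
      rw [List.map_map]
      conv_lhs => rw [← List.attach_map_subtype_val l]
      rw [List.map_map]
      rfl

theorem stark [IsTotallyReal K] : Stark K := by
  intro σ ε hε M S L hM hL h1 F hF χ hχ
  obtain ⟨m, hm, h⟩ := (induction (-1) (Or.inr rfl)).2 ε hε M S L hM hL _ (virt_ind hF hχ)
  refine eventually_iff (fun ℓ h => h) (stark_of_mem hF hχ σ hm h ?_)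
  rintro f ⟨F', ψ, hF', hψ, rfl⟩
  exact (stark_ev hF' (Pool.Agent.Q20.TR.lin_isCharacter F' ψ.hom ψ.smooth) σ).1
    (eventually_old (fun ℓ h => h) (h1 F' hF' ψ hψ))

theorem algebraicity [IsTotallyReal K] : Algebraicity K := by
  intro ε hε M S L hM hL h1 F hF χ hχ
  obtain ⟨m, hm, h⟩ := (induction (-1) (Or.inr rfl)).2 ε hε M S L hM hL _ (virt_ind hF hχ)
  refine eventually_iff (fun ℓ h => h) (alg_of_mem hF hχ hm h ?_)
  rintro f ⟨F', ψ, hF', hψ, rfl⟩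
  exact (alg_ev hF' (Pool.Agent.Q20.TR.lin_isCharacter F' ψ.hom ψ.smooth)).1
    (eventually_old (fun ℓ h => h) (h1 F' hF' ψ hψ))

end

end Pool.Agent.Q20.RS
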