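import Pool.Agent.Q20.RS.Stk

/-!
# Comparison of the two notions of levels
-/

set_option autoImplicit false
set_option linter.unusedSectionVars false

namespace Pool.Agent.Q20.RS

open NumberField IsDedekindDomain

section fields
variable {K : Type} [Field K] [NumberField K]

variable {F : IntermediateField K (AlgebraicClosure K)} (ℓ : Lvl K)

/-- the level -/
noncomputable def Lvl.old : Level K :=
  { N := ℓ.N
    fin := ℓ.fin
    nor := ℓ.nor
    T := ℓ.T
    stable := ℓ.stable
    ram := ℓ.ram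
    θ := ℓ.θ }

/-- the level -/
noncomputable def Level.new (ℓ : Level K) : Lvl K :=
  { N := ℓ.N
    fin := ℓ.fin
    nor := ℓ.nor
    T := ℓ.T
    stable := ℓ.stable
    ram := ℓ.ram
    θ := ℓ.θ }

theorem Lvl.A_eq (χ : F.fixingSubgroup → ℂ) : ℓ.A χ = ℓ.old.A χ := rfl

theorem Lvl.L_eq (χ : F.fixingSubgroup → ℂ) (s : ℂ) : ℓ.L χ s = ℓ.old.L χ s := rfl

end fields

end Pool.Agent.Q20.RS
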