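import Mathlib

/-!
# Characters of absolute Galois groups, induction, places: definitions
-/

set_option autoImplicit false

namespace Pool.Agent.Q20.RS

open NumberField
open scoped Classical

/-- the intermediate fields of an algebraic closure of the field `K` (e.g. `K = ℚ`) -/
abbrev Sub (K : Type) [Field K] : Type := IntermediateField K (AlgebraicClosure K)

/-- a positive multiple of `f` is an integral combination of elements of `A` -/
def Multiple {X : Type} (f : X → ℂ) (A : Set (X → ℂ)) : Prop :=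
  ∃ m : ℕ, 0 < m ∧ m • f ∈ AddSubgroup.closure A

section defs
variable {K : Type} [Field K]

/-- the field `K` in `K̄` -/
noncomputable def base (K : Type) [Field K] : Sub K := ⊥

/-- the finite extensions of `K` -/
def FinExt (F : Sub K) : Prop := FiniteDimensional K F

/-- the group `Gal(K̄/F)` -/
abbrev GalF (F : Sub K) : Type := F.fixingSubgroup

/-- complex functions on `Gal(K̄/F)` -/
def Fn (F : Sub K) : Type := GalF F → ℂ

/-- a homomorphism of `Gal(K̄/F)` is smooth if it is trivial on `Gal(K̄/E)` for a finite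
extension `E` of `K` -/
def Smt {F : Sub K} {X : Type} [Group X] (τ : GalF F →* X) : Prop :=
  ∃ E : Sub K, FinExt E ∧ ∀ g : GalF F, (g : Gal(AlgebraicClosure K/K)) ∈ E.fixingSubgroup → τ g = 1

/-- characters of smooth finite-dimensional complex representations of `Gal(K̄/F)` -/
def Char {F : Sub K} (χ : Fn F) : Prop :=
  ∃ (n : ℕ) (τ : GalF F →* GL (Fin n) ℂ), Smt τ ∧
    ∀ g, χ g = (τ g : Matrix (Fin n) (Fin n) ℂ).trace

/-- virtual characters of `Gal(K̄/F)` -/
def Virt {F : Sub K} (f : Fn F) : Prop :=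
  (f : GalF F → ℂ) ∈ AddSubgroup.closure {χ : GalF F → ℂ | Char (F := F) χ}

/-- induction from `Gal(K̄/F')` to `Gal(K̄/F)`, `F ⊆ F'` -/
noncomputable def ind (F F' : Sub K) (χ : Fn F') : Fn F := fun g =>
  ∑ᶠ x : GalF F ⧸ F'.fixingSubgroup.subgroupOf F.fixingSubgroup,
    if h : ((x.out⁻¹ * g * x.out : GalF F) : Gal(AlgebraicClosure K/K)) ∈ F'.fixingSubgroup then
      χ ⟨_, h⟩ else 0

/-- smooth linear characters of `Gal(K̄/F)` -/
structure Lin (F : Sub K) : Type where
  /-- the homomorphism -/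
  hom : GalF F →* ℂˣ
  smooth : Smt hom

/-- the values of a linear character -/
noncomputable def Lin.fn {F : Sub K} (ψ : Lin F) : Fn F := fun g => ((ψ.hom g : ℂˣ) : ℂ)

/-- a finite place of `K̄` above `p`: a nonarchimedean absolute value (as a function) with
`w p = 1/p` -/
structure Plc (p : ℕ) (w : AlgebraicClosure K → ℝ) : Prop where
  nonneg : ∀ x, 0 ≤ w x
  zero : w 0 = 0
  mul : ∀ x y, w (x * y) = w x * w y
  add : ∀ x y, w (x + y) ≤ max (w x) (w y)
  prime : w (p : AlgebraicClosure K) = (p : ℝ)⁻¹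

/-- the decomposition group of a place of `K̄` -/
def Dcm (w : AlgebraicClosure K → ℝ) (g : Gal(AlgebraicClosure K/K)) : Prop := ∀ x, w (g x) = w x

/-- the inertia group of a place of `K̄` -/
def Inr (w : AlgebraicClosure K → ℝ) (g : Gal(AlgebraicClosure K/K)) : Prop :=
  Dcm w g ∧ ∀ x, w x ≤ 1 → w (g x - x) < 1

/-- complex conjugations: `ι ∘ c = conj ∘ ι` for an embedding `ι` of `K̄` -/
def CCj (c : Gal(AlgebraicClosure K/K)) : Prop :=
  ∃ ι : AlgebraicClosure K →+* ℂ, ∀ x, ι (c x) = (starRingEnd ℂ) (ι x)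

/-- the conjugate function `χ^σ` -/
def conj {F : Sub K} (σ : ℂ ≃+* ℂ) (χ : Fn F) : Fn F := fun g => σ (χ g)

end defs

end Pool.Agent.Q20.RS
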