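import Pool.Agent.Q20.RS.Lvl

/-!
# Conjugate representations, and the subgroup where Stark's equality holds up to roots of unity
-/

set_option autoImplicit false
set_option linter.unusedSectionVars false

namespace Pool.Agent.Q20.RS

open NumberField IsDedekindDomain Pool.Agent.Q92.AR
open Representation (IntertwiningMap)
open Module (finrank)

theorem ContainsRamified.tower {K F M : Type} [Field K] [NumberField K] [Field F] [NumberField F]
    [Field M] [NumberField M] [Algebra K F] [Algebra K M] [Algebra F M] [IsScalarTower K F M]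
    [IsGalois K M] {T : Finset (HeightOneSpectrum (𝓞 M))} (hT : Stable K T)
    (hR : ContainsRamified K T) : ContainsRamified F T := by
  intro w hw
  have h1 : ¬ Unramified M (w.under (𝓞 K)) := fun h => hw (Unramified.over h)
  obtain ⟨u, hu, huw⟩ := hR _ h1
  exact (inS_iff hT w).2 ⟨u, hu, huw⟩

/-- the conjugate representation -/
theorem exists_conj {G U : Type} [Group G] [AddCommGroup U] [Module ℂ U] [FiniteDimensional ℂ U]
    (ρ : Representation ℂ G U) (σ : ℂ ≃+* ℂ) :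
    ∃ ρ' : Representation ℂ G (Fin (finrank ℂ U) → ℂ), ∀ g, ρ'.character g = σ (ρ.character g) := by
  let b := Module.finBasis ℂ U
  let m1 : Module.End ℂ U →* Matrix (Fin (finrank ℂ U)) (Fin (finrank ℂ U)) ℂ :=
    (LinearMap.toMatrixAlgEquiv b : Module.End ℂ U →* _)
  let m2 : Matrix (Fin (finrank ℂ U)) (Fin (finrank ℂ U)) ℂ →*
      Matrix (Fin (finrank ℂ U)) (Fin (finrank ℂ U)) ℂ :=
    ((σ : ℂ →+* ℂ).mapMatrix : _ →+* _).toMonoidHom
  let m3 : Matrix (Fin (finrank ℂ U)) (Fin (finrank ℂ U)) ℂ →*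
      Module.End ℂ (Fin (finrank ℂ U) → ℂ) :=
    ((Matrix.toLinAlgEquiv' : Matrix (Fin (finrank ℂ U)) (Fin (finrank ℂ U)) ℂ ≃ₐ[ℂ] _) :
      Matrix (Fin (finrank ℂ U)) (Fin (finrank ℂ U)) ℂ →* _)
  refine ⟨m3.comp (m2.comp (m1.comp ρ)), fun g => ?_⟩
  unfold Representation.character
  change LinearMap.trace ℂ _ (Matrix.toLin' ((LinearMap.toMatrix b b (ρ g)).map (σ : ℂ →+* ℂ))) = _
  rw [Matrix.trace_toLin'_eq, LinearMap.trace_eq_matrix_trace ℂ b (ρ g)]
  simp [Matrix.trace]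

theorem indj_conj {H Γ : Type} [Group H] [Fintype H] [Group Γ] [Fintype Γ] (j : H →* Γ)
    (f : H → ℂ) (σ : ℂ ≃+* ℂ) : (fun g => σ (indj j f g)) = indj j fun h => σ (f h) := by
  funext g
  unfold indj
  rw [map_mul, map_inv₀, map_natCast, map_sum]
  congr 1
  refine Finset.sum_congr rfl fun x _ => ?_
  rw [map_sum]
  refine Finset.sum_congr rfl fun h _ => ?_
  split_ifs
  · rfl
  · exact map_zero σ

section
variable {K M : Type} [Field K] [NumberField K] [Field M] [NumberField M] [Algebra K M]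
  [IsGalois K M] {T : Finset (HeightOneSpectrum (𝓞 M))} {hT : Stable K T}

/-- Stark's number of a virtual character as a complex number -/
noncomputable def val (θ : StarkMap hT) (f : PP θ) : ℂ := (((Phi θ f).toMul : ℂˣ) : ℂ)

theorem val_ne (θ : StarkMap hT) (f : PP θ) : val θ f ≠ 0 := Units.ne_zero _

theorem val_add (θ : StarkMap hT) (f f' : PP θ) : val θ (f + f') = val θ f * val θ f' := by
  unfold val
  rw [map_add, toMul_add, Units.val_mul]

theorem val_zero (θ : StarkMap hT) : val θ 0 = 1 := by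
  unfold val
  rw [map_zero]
  rfl

theorem val_neg (θ : StarkMap hT) (f : PP θ) : val θ (-f) = (val θ f)⁻¹ := by
  unfold val
  rw [map_neg, toMul_neg, Units.val_inv_eq_inv_val]

theorem val_nsmul (θ : StarkMap hT) (m : ℕ) (f : PP θ) : val θ (m • f) = val θ f ^ m := by
  unfold val
  rw [map_nsmul, toMul_nsmul, Units.val_pow_eq_pow_val]

theorem val_zsmul (θ : StarkMap hT) (m : ℤ) (f : PP θ) : val θ (m • f) = val θ f ^ m := by
  unfold val
  rw [map_zsmul, toMul_zsmul, Units.val_zpow_eq_zpow_val]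

/-- **The virtual characters for which Stark's equality holds up to roots of unity** -/
noncomputable def SR (θ : StarkMap hT) (σ : ℂ ≃+* ℂ) : AddSubgroup ((M ≃ₐ[K] M) → ℂ) where
  carrier := {f | ∃ (h : f ∈ PP θ) (h' : (fun g => σ (f g)) ∈ PP θ) (m : ℕ), 0 < m ∧
    σ (val θ ⟨f, h⟩) ^ m = val θ ⟨_, h'⟩ ^ m}
  add_mem' := fun {a b} ha hb => by
    obtain ⟨h1, h1', m, hm, e1⟩ := ha
    obtain ⟨h2, h2', n, hn, e2⟩ := hb
    have h3 : (fun g => σ ((a + b) g)) = (fun g => σ (a g)) + fun g => σ (b g) :=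
      funext fun g => map_add σ _ _
    have h4 : (fun g => σ ((a + b) g)) ∈ PP θ := h3 ▸ add_mem h1' h2'
    refine ⟨add_mem h1 h2, h4, m * n, Nat.mul_pos hm hn, ?_⟩
    have e3 : val θ ⟨a + b, add_mem h1 h2⟩ = val θ ⟨a, h1⟩ * val θ ⟨b, h2⟩ :=
      val_add θ ⟨a, h1⟩ ⟨b, h2⟩
    have e4 : val θ ⟨fun g => σ ((a + b) g), h4⟩ = val θ ⟨_, h1'⟩ * val θ ⟨_, h2'⟩ := by
      rw [← val_add]
      congr 1
      exact Subtype.ext h3
    rw [e3, e4, map_mul, mul_pow, mul_pow, pow_mul, e1, mul_comm m n, pow_mul (σ (val θ ⟨b, h2⟩)),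
      e2, ← pow_mul, ← pow_mul, mul_comm m n]
  zero_mem' := by
    have h3 : (fun g => σ ((0 : (M ≃ₐ[K] M) → ℂ) g)) = 0 := funext fun g => map_zero σ
    have h4 : (fun g => σ ((0 : (M ≃ₐ[K] M) → ℂ) g)) ∈ PP θ := by
      rw [h3]
      exact zero_mem _
    refine ⟨zero_mem _, h4, 1, one_pos, ?_⟩
    have e1 : val θ ⟨0, zero_mem _⟩ = 1 := val_zero θ
    have e2 : val θ ⟨fun g => σ ((0 : (M ≃ₐ[K] M) → ℂ) g), h4⟩ = 1 := by
      rw [← val_zero θ]
      congr 1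
      exact Subtype.ext h3
    rw [e1, e2, map_one]
  neg_mem' := fun {a} ha => by
    obtain ⟨h1, h1', m, hm, e1⟩ := ha
    have h3 : (fun g => σ ((-a) g)) = -fun g => σ (a g) := funext fun g => map_neg σ _
    have h4 : (fun g => σ ((-a) g)) ∈ PP θ := h3 ▸ neg_mem h1'
    refine ⟨neg_mem h1, h4, m, hm, ?_⟩
    have e3 : val θ ⟨-a, neg_mem h1⟩ = (val θ ⟨a, h1⟩)⁻¹ := val_neg θ ⟨a, h1⟩
    have e4 : val θ ⟨fun g => σ ((-a) g), h4⟩ = (val θ ⟨_, h1'⟩)⁻¹ := by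
      rw [← val_neg]
      congr 1
      exact Subtype.ext h3
    rw [e3, e4, map_inv₀, inv_pow, inv_pow, e1]

/-- saturation -/
theorem SR_sat {θ : StarkMap hT} {σ : ℂ ≃+* ℂ} {f : (M ≃ₐ[K] M) → ℂ} (h : f ∈ PP θ)
    (h' : (fun g => σ (f g)) ∈ PP θ) {m : ℕ} (hm : 0 < m) (hf : m • f ∈ SR θ σ) : f ∈ SR θ σ := by
  obtain ⟨h1, h1', n, hn, e⟩ := hf
  refine ⟨h, h', m * n, Nat.mul_pos hm hn, ?_⟩
  have e3 : val θ ⟨m • f, h1⟩ = val θ ⟨f, h⟩ ^ m := val_nsmul θ m ⟨f, h⟩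
  have e4 : val θ ⟨fun g => σ ((m • f) g), h1'⟩ = val θ ⟨_, h'⟩ ^ m := by
    rw [← val_nsmul]
    congr 1
    exact Subtype.ext (funext fun g => map_nsmul σ m _)
  rw [e3, e4, map_pow, ← pow_mul, ← pow_mul] at e
  exact e

/-- **The virtual characters whose Stark numbers are algebraic** -/
noncomputable def AG (θ : StarkMap hT) : AddSubgroup ((M ≃ₐ[K] M) → ℂ) where
  carrier := {f | ∃ h : f ∈ PP θ, IsAlgebraic ℚ (val θ ⟨f, h⟩)}
  add_mem' := fun {a b} ha hb => by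
    obtain ⟨h1, e1⟩ := ha
    obtain ⟨h2, e2⟩ := hb
    refine ⟨add_mem h1 h2, ?_⟩
    have e3 : val θ ⟨a + b, add_mem h1 h2⟩ = val θ ⟨a, h1⟩ * val θ ⟨b, h2⟩ :=
      val_add θ ⟨a, h1⟩ ⟨b, h2⟩
    rw [e3]
    exact e1.mul e2
  zero_mem' := by
    refine ⟨zero_mem _, ?_⟩
    have e1 : val θ ⟨0, zero_mem _⟩ = 1 := val_zero θ
    rw [e1]
    exact isAlgebraic_one
  neg_mem' := fun {a} ha => by
    obtain ⟨h1, e1⟩ := ha
    refine ⟨neg_mem h1, ?_⟩
    have e3 : val θ ⟨-a, neg_mem h1⟩ = (val θ ⟨a, h1⟩)⁻¹ := val_neg θ ⟨a, h1⟩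
    rw [e3]
    exact e1.inv

theorem AG_sat {θ : StarkMap hT} {f : (M ≃ₐ[K] M) → ℂ} (h : f ∈ PP θ) {m : ℕ} (hm : 0 < m)
    (hf : m • f ∈ AG θ) : f ∈ AG θ := by
  obtain ⟨h1, e⟩ := hf
  refine ⟨h, ?_⟩
  have e3 : val θ ⟨m • f, h1⟩ = val θ ⟨f, h⟩ ^ m := val_nsmul θ m ⟨f, h⟩
  rw [e3] at e
  exact e.of_pow hm

end

section
variable {K F M : Type} [Field K] [NumberField K] [Field F] [NumberField F] [Field M] [NumberField M]
  [Algebra K F] [Algebra K M] [Algebra F M] [IsScalarTower K F M] [IsGalois K M] [IsGalois F M]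
  {T : Finset (HeightOneSpectrum (𝓞 M))} {hT : Stable K T}

theorem starkA_val (hR : ContainsRamified K T) (θ : StarkMap hT) (hT' : Stable F T)
    {U : Type} [AddCommGroup U] [Module ℂ U] [FiniteDimensional ℂ U]
    (ρ : Representation ℂ (M ≃ₐ[F] M) U) : ∃ h : indj (rsc K F M) ρ.character ∈ PP θ,
      starkA (θ.res hT') ρ = val θ ⟨_, h⟩ :=
  starkA_eq hR θ hT' (hR.tower hT) ρ

/-- Stark's equality for a representation in terms of the induced character -/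
theorem stark_iff (hR : ContainsRamified K T) (θ : StarkMap hT) (hT' : Stable F T)
    {U : Type} [AddCommGroup U] [Module ℂ U] [FiniteDimensional ℂ U]
    (ρ : Representation ℂ (M ≃ₐ[F] M) U) (σ : ℂ ≃+* ℂ) :
    StarkUpToRoots (θ.res hT') ρ σ ↔ indj (rsc K F M) ρ.character ∈ SR θ σ := by
  obtain ⟨h1, e1⟩ := starkA_val hR θ hT' ρ
  constructor
  · intro h
    obtain ⟨ρ', hρ'⟩ := exists_conj ρ σ
    obtain ⟨h2, e2⟩ := starkA_val hR θ hT' ρ'
    obtain ⟨m, hm, e⟩ := h _ ρ' hρ'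
    have h3 : (fun g => σ (indj (rsc K F M) ρ.character g)) = indj (rsc K F M) ρ'.character := by
      rw [indj_conj]
      congr 1
      exact funext fun g => (hρ' g).symm
    refine ⟨h1, h3 ▸ h2, m, hm, ?_⟩
    rw [← e1, e, e2]
    congr 2
    exact Subtype.ext h3.symm
  · rintro ⟨h2, h2', m, hm, e⟩ U' _ _ _ ρ' hρ'
    obtain ⟨h4, e4⟩ := starkA_val hR θ hT' ρ'
    refine ⟨m, hm, ?_⟩
    rw [e1, e, e4]
    congr 2
    refine Subtype.ext ?_
    change (fun g => σ (indj (rsc K F M) ρ.character g)) = indj (rsc K F M) ρ'.character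
    rw [indj_conj]
    congr 1
    exact funext fun g => (hρ' g).symm

theorem alg_iff (hR : ContainsRamified K T) (θ : StarkMap hT) (hT' : Stable F T)
    {U : Type} [AddCommGroup U] [Module ℂ U] [FiniteDimensional ℂ U]
    (ρ : Representation ℂ (M ≃ₐ[F] M) U) :
    IsAlgebraic ℚ (starkA (θ.res hT') ρ) ↔ indj (rsc K F M) ρ.character ∈ AG θ := by
  obtain ⟨h1, e1⟩ := starkA_val hR θ hT' ρ
  rw [e1]
  exact ⟨fun h => ⟨h1, h⟩, fun ⟨_, h⟩ => h⟩

end

end Pool.Agent.Q20.RS
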