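import Mathlib

/-!
# Stark's numbers `A_S(χ, φ)` for real Artin L-functions

`M/F` is a Galois extension of number fields with group `G`, `T` a finite set of primes of `M` stable
under `G` which contains the primes above those which ramify in `M/F`, and `S` the set of the primes of
`F` below the primes in `T` together with the archimedean places.
-/

set_option autoImplicit false
set_option linter.unusedSectionVars false

namespace Pool.Agent.Q20.RS

open NumberField IsDedekindDomain
open Representation (IntertwiningMap)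

section places
variable (M : Type) [Field M] [NumberField M]

/-- the places of the number field `M` -/
abbrev Pl : Type := HeightOneSpectrum (𝓞 M) ⊕ InfinitePlace M

variable {M}

/-- `log |u|_w` for the normalised absolute values (the square of the usual modulus at the complex
places) -/
noncomputable def logv (u : M) : Pl M → ℝ
  | .inl w => Real.log (NumberField.HeightOneSpectrum.adicAbv M w u)
  | .inr v => (v.mult : ℝ) * Real.log (v u)

/-- `ℂ ⊗ X`: the complex functions on the places above `S`, that is the places in `T` and the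
archimedean places, with sum zero (extended by zero to the other places) -/
noncomputable def XS (T : Finset (HeightOneSpectrum (𝓞 M))) : Submodule ℂ (Pl M → ℂ) where
  carrier := {a | (∀ w, w ∉ T → a (.inl w) = 0) ∧
    ∑ w ∈ T, a (.inl w) + ∑ v : InfinitePlace M, a (.inr v) = 0}
  add_mem' := fun {a b} ha hb => by
    refine ⟨fun w hw => ?_, ?_⟩
    · rw [Pi.add_apply, ha.1 w hw, hb.1 w hw, add_zero]
    · simp only [Pi.add_apply, Finset.sum_add_distrib]
      linear_combination ha.2 + hb.2
  zero_mem' := by simp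
  smul_mem' := fun c a ha => by
    refine ⟨fun w hw => ?_, ?_⟩
    · rw [Pi.smul_apply, ha.1 w hw, smul_zero]
    · simp only [Pi.smul_apply, smul_eq_mul, ← Finset.mul_sum]
      linear_combination c * ha.2

/-- `ℂ ⊗ X` as a type -/
def XC (T : Finset (HeightOneSpectrum (𝓞 M))) : Type := XS T

noncomputable instance xcGroup (T : Finset (HeightOneSpectrum (𝓞 M))) : AddCommGroup (XC T) :=
  Submodule.addCommGroup (XS T)

noncomputable instance xcModule (T : Finset (HeightOneSpectrum (𝓞 M))) : Module ℂ (XC T) :=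
  Submodule.module (XS T)

/-- the values at the places -/
def XC.fn {T : Finset (HeightOneSpectrum (𝓞 M))} (x : XC T) : Pl M → ℂ := x.1

/-- the elements of `ℚ ⊗ X` -/
def Rational {T : Finset (HeightOneSpectrum (𝓞 M))} (x : XC T) : Prop :=
  ∀ w, ∃ q : ℚ, x.fn w = q

/-- the elements of the rational span of the vectors `λ(u) = (- log |u|_w)_w`, `u` a `T`-unit of `M` -/
def LogUnit {T : Finset (HeightOneSpectrum (𝓞 M))} (x : XC T) : Prop :=
  ∃ m : ℕ, 0 < m ∧ ∃ u : M, u ≠ 0 ∧ (∀ w, w ∉ T → NumberField.HeightOneSpectrum.adicAbv M w u = 1) ∧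
    ∀ w, (m : ℂ) * x.fn w = ((-logv u w : ℝ) : ℂ)

end places

section action
variable {F M : Type} [Field F] [Field M] [NumberField M] [Algebra F M]

/-- the action of the Galois group on the primes -/
noncomputable def pra (g : M ≃ₐ[F] M) (P : HeightOneSpectrum (𝓞 M)) : HeightOneSpectrum (𝓞 M) :=
  HeightOneSpectrum.equivOfRingEquiv (RingOfIntegers.mapRingEquiv g.toRingEquiv) P

theorem pra_one (P : HeightOneSpectrum (𝓞 M)) : pra (1 : M ≃ₐ[F] M) P = P := by
  ext x
  exact Iff.rfl

theorem pra_mul (g h : M ≃ₐ[F] M) (P : HeightOneSpectrum (𝓞 M)) :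
    pra (g * h) P = pra g (pra h P) := by
  ext x
  exact Iff.rfl

/-- the action of the Galois group on the places -/
noncomputable def pact (g : M ≃ₐ[F] M) : Pl M → Pl M :=
  Sum.map (pra g) (fun v => g • v)

variable (F) in
/-- `T` is stable under the Galois group -/
def Stable (T : Finset (HeightOneSpectrum (𝓞 M))) : Prop :=
  ∀ g : M ≃ₐ[F] M, ∀ w ∈ T, pra g w ∈ T

theorem pact_one (w : Pl M) : pact (1 : M ≃ₐ[F] M) w = w := by
  rcases w with w | v
  · exact congrArg Sum.inl (pra_one w)
  · exact congrArg Sum.inr (one_smul _ v)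

theorem pact_mul (g h : M ≃ₐ[F] M) (w : Pl M) : pact (g * h) w = pact g (pact h w) := by
  rcases w with w | v
  · exact congrArg Sum.inl (pra_mul g h w)
  · exact congrArg Sum.inr (mul_smul g h v)

theorem xc_act {T : Finset (HeightOneSpectrum (𝓞 M))} (hT : Stable F T) (g : M ≃ₐ[F] M)
    (a : Pl M → ℂ) (ha : a ∈ XS T) : LinearMap.funLeft ℂ ℂ (pact g⁻¹) a ∈ XS T := by
  classical
  have hinv : ∀ w, pra g (pra g⁻¹ w) = w := fun w => by
    rw [← pra_mul, mul_inv_cancel, pra_one]
  have hinv' : ∀ w, pra g⁻¹ (pra g w) = w := fun w => by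
    rw [← pra_mul, inv_mul_cancel, pra_one]
  refine ⟨fun w hw => ?_, ?_⟩
  · refine ha.1 _ fun h => hw ?_
    have h1 := hT g _ h
    rwa [hinv] at h1
  · have h1 : ∑ w ∈ T, a (.inl (pra g⁻¹ w)) = ∑ w ∈ T, a (.inl w) :=
      Finset.sum_nbij' (pra g⁻¹) (pra g) (fun w hw => hT _ w hw)
        (fun w hw => hT _ w hw) (fun w _ => hinv w) (fun w _ => hinv' w) (fun w _ => rfl)
    have h2 : ∑ v : InfinitePlace M, a (.inr (g⁻¹ • v)) = ∑ v : InfinitePlace M, a (.inr v) :=
      Equiv.sum_comp (MulAction.toPerm g⁻¹) fun v => a (.inr v)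
    change ∑ w ∈ T, a (.inl (pra g⁻¹ w)) +
      ∑ v : InfinitePlace M, a (.inr (g⁻¹ • v)) = 0
    rw [h1, h2]
    exact ha.2

/-- the action of an element of the Galois group on `ℂ ⊗ X` -/
noncomputable def xact {T : Finset (HeightOneSpectrum (𝓞 M))} (hT : Stable F T) (g : M ≃ₐ[F] M) :
    XC T →ₗ[ℂ] XC T :=
  (LinearMap.funLeft ℂ ℂ (pact g⁻¹)).restrict (xc_act hT g)

theorem xact_one {T : Finset (HeightOneSpectrum (𝓞 M))} (hT : Stable F T) :
    xact hT 1 = (1 : Module.End ℂ (XC T)) := by
  ext a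
  apply Subtype.ext
  funext w
  change a.1 (pact (1 : M ≃ₐ[F] M)⁻¹ w) = a.1 w
  rw [inv_one, pact_one]

theorem xact_mul {T : Finset (HeightOneSpectrum (𝓞 M))} (hT : Stable F T) (g h : M ≃ₐ[F] M) :
    xact hT (g * h) = (xact hT g * xact hT h : Module.End ℂ (XC T)) := by
  ext a
  apply Subtype.ext
  funext w
  change a.1 (pact (g * h)⁻¹ w) = a.1 (pact h⁻¹ (pact g⁻¹ w))
  rw [mul_inv_rev, pact_mul]

/-- the representation of the Galois group on `ℂ ⊗ X` -/
noncomputable def XRep {T : Finset (HeightOneSpectrum (𝓞 M))} (hT : Stable F T) :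
    Representation ℂ (M ≃ₐ[F] M) (XC T) where
  toFun := xact hT
  map_one' := xact_one hT
  map_mul' := xact_mul hT

/-- **The maps `λ_S ∘ φ_S`**, extended to `ℂ ⊗ X`: the automorphisms of the representation `ℂ ⊗ X` of the
Galois group of `M/F` which map the rational vectors `ℚ ⊗ X` onto the rational span of the vectors
`λ(u) = (- log |u|_w)_w`, `u` a `T`-unit of `M` -/
structure StarkMap {T : Finset (HeightOneSpectrum (𝓞 M))} (hT : Stable F T) : Type where
  /-- the map -/
  map : IntertwiningMap (XRep hT) (XRep hT)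
  bijective : Function.Bijective map
  rational : ∀ x : XC T, Rational x ↔ LogUnit (map x)

section
variable {G : Type} [Group G] {U V : Type} [AddCommGroup U] [Module ℂ U]
  [AddCommGroup V] [Module ℂ V]

/-- `Hom_G(V*, X)`, `V*` the dual of the representation `V` -/
def HomD (ρ : Representation ℂ G U) (X : Representation ℂ G V) : Type := IntertwiningMap ρ.dual X

noncomputable instance homDGroup (ρ : Representation ℂ G U) (X : Representation ℂ G V) :
    AddCommGroup (HomD ρ X) := IntertwiningMap.instAddCommGroup ρ.dual X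

noncomputable instance homDModule (ρ : Representation ℂ G U) (X : Representation ℂ G V) :
    Module ℂ (HomD ρ X) := IntertwiningMap.instModule ρ.dual X

/-- `f ↦ θ ∘ f` -/
noncomputable def postD (ρ : Representation ℂ G U) (X : Representation ℂ G V)
    (θ : IntertwiningMap X X) : HomD ρ X →ₗ[ℂ] HomD ρ X :=
  IntertwiningMap.llcomp ρ.dual X X θ

/-- **Stark's regulator**: the determinant of `f ↦ θ ∘ f` on `Hom_G(V*, X)`, `V*` the dual of the
representation `V`, `θ` an endomorphism of the representation `X` -/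
noncomputable def regul (ρ : Representation ℂ G U) (X : Representation ℂ G V)
    (θ : IntertwiningMap X X) : ℂ := LinearMap.det (postD ρ X θ)

end

end action

section lfun
variable {F M : Type} [Field F] [NumberField F] [Field M] [NumberField M] [Algebra F M]

/-- the prime `v` of `F` is unramified in `M`: no prime `w` above `v` has `w² ∣ v` -/
def Unrm (M : Type) {F : Type} [Field F] [NumberField F] [Field M] [NumberField M] [Algebra F M]
    (v : HeightOneSpectrum (𝓞 F)) : Prop :=
  ∀ w : HeightOneSpectrum (𝓞 M), w.under (𝓞 F) = v →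
    ¬ v.asIdeal.map (algebraMap (𝓞 F) (𝓞 M)) ≤ w.asIdeal ^ 2

/-- `T` contains a prime above every prime of `F` which ramifies in `M` -/
def ContainsRamified (F : Type) {M : Type} [Field F] [NumberField F] [Field M] [NumberField M]
    [Algebra F M] (T : Finset (HeightOneSpectrum (𝓞 M))) : Prop :=
  ∀ v : HeightOneSpectrum (𝓞 F), ¬ Unrm M v → ∃ w ∈ T, w.under (𝓞 F) = v

/-- The automorphism `g` is a Frobenius element at the prime `v` of `F`: there is a prime `w` of `M`
above `v` with `g x ≡ x ^ q_v` modulo `w` for all integers `x` of `M`. -/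
def IsFrb (v : HeightOneSpectrum (𝓞 F)) (g : M ≃ₐ[F] M) : Prop :=
  ∃ w : Ideal (𝓞 M), w.IsMaximal ∧ w.comap (algebraMap (𝓞 F) (𝓞 M)) = v.asIdeal ∧
    ∀ x : 𝓞 M, ∃ y ∈ w, (y : M) = g x - (x : M) ^ Ideal.absNorm v.asIdeal

open scoped Classical in
variable (M) in
/-- a Frobenius element at `v` in the Galois group of `M` over `F` -/
noncomputable def frb (v : HeightOneSpectrum (𝓞 F)) : M ≃ₐ[F] M :=
  if h : ∃ g : M ≃ₐ[F] M, IsFrb v g then h.choose else 1

/-- `f` is meromorphic on `ℂ` and continues the function `g`, given for `Re s > 1` -/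
def Conts (f g : ℂ → ℂ) : Prop :=
  MeromorphicOn f Set.univ ∧ ∀ s : ℂ, 1 < s.re → f s = g s

open scoped Classical in
/-- the meromorphic continuation of `g`, if it exists (the zero function otherwise) -/
noncomputable def mcont (g : ℂ → ℂ) : ℂ → ℂ := if h : ∃ f, Conts f g then h.choose else 0

open scoped Classical in
/-- `χ(Frob_v^n) / (n q_v^{n s})`, `n = x.2 + 1`, for the primes `v = x.1` of `F` outside `S` -/
noncomputable def lTerm (T : Finset (HeightOneSpectrum (𝓞 M))) (χ : (M ≃ₐ[F] M) → ℂ) (s : ℂ)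
    (x : HeightOneSpectrum (𝓞 F) × ℕ) : ℂ :=
  if ∃ w ∈ T, w.under (𝓞 F) = x.1 then 0 else χ (frb M x.1 ^ (x.2 + 1)) /
    (((x.2 + 1 : ℕ) : ℂ) * (Ideal.absNorm x.1.asIdeal : ℂ) ^ (((x.2 + 1 : ℕ) : ℂ) * s))

/-- the Artin L-function `L_S(s, χ)` for `Re s > 1`, as the exponential of its logarithm
`∑_{v ∉ S} ∑_{n ≥ 1} χ(Frob_v^n) / (n q_v^{n s})` -/
noncomputable def artinLS (T : Finset (HeightOneSpectrum (𝓞 M))) (χ : (M ≃ₐ[F] M) → ℂ) (s : ℂ) : ℂ :=
  Complex.exp (∑' x, lTerm T χ s x)

/-- `L_S^*(0, χ)`: the leading coefficient at `s = 0` of the meromorphic continuation of `L_S(s, χ)` -/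
noncomputable def leading (T : Finset (HeightOneSpectrum (𝓞 M))) (χ : (M ≃ₐ[F] M) → ℂ) : ℂ :=
  meromorphicTrailingCoeffAt (mcont (artinLS T χ)) 0

/-- **Stark's number** `A_S(χ, φ) = R_S(χ, φ) / L_S^*(0, χ)`, `χ` the character of `ρ` -/
noncomputable def starkA {T : Finset (HeightOneSpectrum (𝓞 M))} {hT : Stable F T}
    (θ : StarkMap hT) {U : Type} [AddCommGroup U] [Module ℂ U]
    (ρ : Representation ℂ (M ≃ₐ[F] M) U) : ℂ :=
  regul ρ (XRep hT) θ.map / leading T ρ.character

/-- **Stark's equality up to roots of unity**: `A_S(χ, φ)^σ = ζ A_S(χ^σ, φ)`, `ζ` a root of unity, `χ` the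
character of `ρ` -/
def StarkUpToRoots {T : Finset (HeightOneSpectrum (𝓞 M))} {hT : Stable F T}
    (θ : StarkMap hT) {U : Type} [AddCommGroup U] [Module ℂ U]
    (ρ : Representation ℂ (M ≃ₐ[F] M) U) (σ : ℂ ≃+* ℂ) : Prop :=
  ∀ (U' : Type) [AddCommGroup U'] [Module ℂ U'] [FiniteDimensional ℂ U']
    (ρ' : Representation ℂ (M ≃ₐ[F] M) U'), (∀ g, ρ'.character g = σ (ρ.character g)) →
      ∃ m : ℕ, 0 < m ∧ σ (starkA θ ρ) ^ m = starkA θ ρ' ^ m

end lfun

end Pool.Agent.Q20.RS
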