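import Pool.Agent.Q20.RS.Def

/-!
# Restriction of scalars
-/

set_option autoImplicit false
set_option linter.unusedSectionVars false

namespace Pool.Agent.Q20.RS

open NumberField IsDedekindDomain
open Representation (IntertwiningMap)

section
variable {K F M : Type} [Field K] [NumberField K] [Field F] [NumberField F] [Field M] [NumberField M]
  [Algebra K F] [Algebra K M] [Algebra F M] [IsScalarTower K F M]

variable (K F M) in
/-- restriction of scalars -/
noncomputable def rsc : (M ≃ₐ[F] M) →* (M ≃ₐ[K] M) where
  toFun y := y.restrictScalars K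
  map_one' := rfl
  map_mul' _ _ := rfl

theorem rsc_apply (y : M ≃ₐ[F] M) (x : M) : rsc K F M y x = y x := rfl

theorem rsc_injective : Function.Injective (rsc K F M) := by
  intro a b h
  ext x
  exact congrArg (fun g : M ≃ₐ[K] M => g x) h

theorem Stable.tower {T : Finset (HeightOneSpectrum (𝓞 M))} (hT : Stable K T) : Stable F T :=
  fun g w hw => hT (g.restrictScalars K) w hw

theorem pact_rsc (g : M ≃ₐ[F] M) (w : Pl M) : pact (rsc K F M g) w = pact g w := by
  rcases w with w | v
  · rfl
  · rfl

theorem xact_rsc {T : Finset (HeightOneSpectrum (𝓞 M))} (hT : Stable K T) (hT' : Stable F T)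
    (g : M ≃ₐ[F] M) : xact hT' g = xact hT (rsc K F M g) := by
  ext a
  apply Subtype.ext
  funext w
  rcases w with w | v
  · rfl
  · rfl

theorem xrep_rsc {T : Finset (HeightOneSpectrum (𝓞 M))} (hT : Stable K T) (hT' : Stable F T) :
    XRep hT' = MonoidHom.comp (XRep hT) (rsc K F M) := by
  ext g : 1
  exact xact_rsc hT hT' g

theorem res_comm {T : Finset (HeightOneSpectrum (𝓞 M))} {hT : Stable K T} (θ : StarkMap hT)
    (hT' : Stable F T) (g : M ≃ₐ[F] M) : θ.map.toLinearMap ∘ₗ XRep hT' g =
      XRep hT' g ∘ₗ θ.map.toLinearMap := by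
  rw [xrep_rsc hT hT']
  exact θ.map.isIntertwining' (rsc K F M g)

/-- the map as a map of representations of the subgroup -/
noncomputable def StarkMap.resMap {T : Finset (HeightOneSpectrum (𝓞 M))} {hT : Stable K T}
    (θ : StarkMap hT) (hT' : Stable F T) : IntertwiningMap (XRep hT') (XRep hT') :=
  ⟨θ.map.toLinearMap, res_comm θ hT'⟩

/-- restriction of Stark's maps to intermediate fields -/
noncomputable def StarkMap.res {T : Finset (HeightOneSpectrum (𝓞 M))} {hT : Stable K T}
    (θ : StarkMap hT) (hT' : Stable F T) : StarkMap hT' where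
  map := θ.resMap hT'
  bijective := θ.bijective
  rational := θ.rational

end

end Pool.Agent.Q20.RS
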