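import Pool.Agent.Q20.RS.Def2
import Pool.Agent.Q20.RS.Bas

/-!
# Levels, with named types for the fields
-/

set_option autoImplicit false
set_option linter.unusedSectionVars false
set_option warn.classDefReducibility false

namespace Pool.Agent.Q20.RS

open NumberField IsDedekindDomain

section fields
variable {K : Type} [Field K] [NumberField K]

/-- the field `F ∩ N` as a subfield of `N` -/
noncomputable def sb (N F : IntermediateField K (AlgebraicClosure K)) : IntermediateField K N :=
  F.comap N.val

/-- the field `N ⊆ K̄` as a type -/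
def NFd (N : IntermediateField K (AlgebraicClosure K)) : Type := N

/-- the field `N ∩ F ⊆ N` as a type -/
def SFd (N F : IntermediateField K (AlgebraicClosure K)) : Type := sb N F

variable (N F : IntermediateField K (AlgebraicClosure K))

noncomputable def ntField : Field (NFd N) := N.toField

attribute [instance] ntField

noncomputable def ntAlg : Algebra K (NFd N) := N.algebra'

attribute [instance] ntAlg

noncomputable def stField : Field (SFd N F) := (sb N F).toField

attribute [instance] stField

noncomputable def stAlg : Algebra K (SFd N F) := (sb N F).algebra'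

attribute [instance] stAlg

noncomputable def stNt : Algebra (SFd N F) (NFd N) :=
  @IntermediateField.instAlgebraSubtypeMem K N _ _ _ (sb N F) N _ (Algebra.id N)

attribute [instance] stNt

instance stTower : IsScalarTower K (SFd N F) (NFd N) := IntermediateField.isScalarTower_mid' (sb N F)

instance ntNum [FiniteDimensional K (NFd N)] : NumberField (NFd N) :=
  NumberField.of_module_finite K (NFd N)

instance stNum [FiniteDimensional K (NFd N)] : NumberField (SFd N F) :=
  have : FiniteDimensional K N := inferInstanceAs (FiniteDimensional K (NFd N))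
  NumberField.of_module_finite K (sb N F)

variable {N F}

/-- the embedding in `K̄` -/
def NFd.val (x : NFd N) : AlgebraicClosure K := Subtype.val x

/-- the element `g` of `Gal(K̄/F)` extends the element `y` of `Gal(N/(N ∩ F))` -/
def Extends (y : NFd N ≃ₐ[SFd N F] NFd N) (g : GalF F) : Prop :=
  ∀ x : NFd N, (y x).val = (g : Gal(AlgebraicClosure K/K)) x.val

/-- a function `χ` on `Gal(K̄/F)` is the inflation of the character of the representation `ρ` of
`Gal(N/F)` -/
def HasCh {U : Type} [AddCommGroup U] [Module ℂ U] (ρ : Representation ℂ (NFd N ≃ₐ[SFd N F] NFd N) U)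
    (χ : Fn F) : Prop :=
  ∀ y g, Extends y g → ρ.character y = χ g

/-- **Levels**: a finite normal extension `N` of `K` in `K̄`, a finite set `T` of primes of `N` which is
stable under `Gal(N/K)` and contains a prime above every prime of `K` which ramifies in `N`, and a map
`θ = λ_S ∘ φ_S` -/
structure Lvl (K : Type) [Field K] [NumberField K] : Type where
  /-- the field -/
  N : IntermediateField K (AlgebraicClosure K)
  [fin : FiniteDimensional K (NFd N)]
  [nor : Normal K (NFd N)]
  /-- the finite places above `S` -/
  T : Finset (HeightOneSpectrum (𝓞 (NFd N)))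
  stable : Stable K T
  ram : ContainsRamified K T
  /-- the map `λ_S ∘ φ_S` -/
  θ : StarkMap stable

attribute [instance] Lvl.fin Lvl.nor

variable (ℓ : Lvl K)

theorem Lvl.galois : IsGalois K (NFd ℓ.N) where

theorem Lvl.stable' (F : IntermediateField K (AlgebraicClosure K)) : Stable (SFd ℓ.N F) ℓ.T :=
  ℓ.stable.tower

/-- `λ_S ∘ φ_S` as a map for the extension `N/F` -/
noncomputable def Lvl.map (F : IntermediateField K (AlgebraicClosure K)) : StarkMap (ℓ.stable' F) :=
  ℓ.θ.res (ℓ.stable' F)

/-- `z` is Stark's number `A_S(χ, φ)` of the function `χ` on `Gal(K̄/F)`, which is the inflation of the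
character of a representation `ρ` of `Gal(N/F)` -/
def Lvl.IsA (χ : Fn F) (z : ℂ) : Prop :=
  ∃ (n : ℕ) (ρ : Representation ℂ (NFd ℓ.N ≃ₐ[SFd ℓ.N F] NFd ℓ.N) (Fin n → ℂ)), HasCh ρ χ ∧
    z = starkA (ℓ.map F) ρ

open scoped Classical in
/-- **Stark's number** `A_S(χ, φ)` of a character `χ` of `Gal(K̄/F)` at the level `ℓ` -/
noncomputable def Lvl.A (χ : Fn F) : ℂ := if h : ∃ z, ℓ.IsA χ z then h.choose else 0

open scoped Classical in
/-- the function on `Gal(N/F)` with inflation `χ` -/
noncomputable def Lvl.fn (χ : Fn F) (y : NFd ℓ.N ≃ₐ[SFd ℓ.N F] NFd ℓ.N) : ℂ :=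
  if h : ∃ g : GalF F, Extends y g then χ h.choose else 0

/-- **The Artin L-function** `L_S(s, χ)` of a character `χ` of `Gal(K̄/F)` at the level `ℓ`, `Re s > 1` -/
noncomputable def Lvl.L (χ : Fn F) (s : ℂ) : ℂ := artinLS ℓ.T (ℓ.fn χ) s

end fields

end Pool.Agent.Q20.RS
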