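import Pool.Agent.Q20.RS.Cnj
import Pool.Agent.Q20.RS.Lvd

/-!
# Virtual characters of the absolute Galois group at all sufficiently large levels
-/

set_option autoImplicit false
set_option linter.unusedSectionVars false

namespace Pool.Agent.Q20.RS

open NumberField IsDedekindDomain Pool.Agent.Q92.AR
open Pool.Agent.Q246.BI (Smooth IsCharacter induced)
open Pool.Agent.Q20.TR (bt)
open Representation (IntertwiningMap)

section
variable {K : Type} [Field K] [NumberField K]

theorem mt_sb {N F₀ : IntermediateField K (AlgebraicClosure K)} (hle : F₀ ≤ N) :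
    Mt N F₀ (sb N F₀) := ⟨hle, fun _ => Iff.rfl⟩

instance numF' (N : IntermediateField K (AlgebraicClosure K)) [FiniteDimensional K N]
    (F : IntermediateField K N) : NumberField F :=
  NumberField.of_module_finite K F

/-- families of subgroups of the class functions at all finite levels -/
abbrev Fam (K : Type) [Field K] [NumberField K] : Type :=
  ∀ (N : IntermediateField K (AlgebraicClosure K)) [FiniteDimensional K N] [Normal K N],
    AddSubgroup ((N ≃ₐ[K] N) → ℂ)

/-- the functions on the absolute Galois group which are in the given subgroup at all sufficiently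
large levels -/
noncomputable def Ev (Q : Fam K) : AddSubgroup ((bt K).fixingSubgroup → ℂ) where
  carrier := {f | ∃ N₀ : IntermediateField K (AlgebraicClosure K), FiniteDimensional K N₀ ∧
    ∀ (N : IntermediateField K (AlgebraicClosure K)) [FiniteDimensional K N] [Normal K N],
      N₀ ≤ N → ∃ f' ∈ Q N, ∀ g, f g = f' (rN N g)}
  add_mem' := fun {a b} ha hb => by
    obtain ⟨N₁, h1, ha⟩ := ha
    obtain ⟨N₂, h2, hb⟩ := hb
    refine ⟨N₁ ⊔ N₂, IntermediateField.finiteDimensional_sup N₁ N₂, fun N _ _ hN => ?_⟩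
    obtain ⟨a', ha', ea⟩ := ha N (le_sup_left.trans hN)
    obtain ⟨b', hb', eb⟩ := hb N (le_sup_right.trans hN)
    exact ⟨a' + b', add_mem ha' hb', fun g => by rw [Pi.add_apply, Pi.add_apply, ea, eb]⟩
  zero_mem' := ⟨⊥, inferInstance, fun N _ _ _ => ⟨0, zero_mem _, fun _ => rfl⟩⟩
  neg_mem' := fun {a} ha => by
    obtain ⟨N₁, h1, ha⟩ := ha
    refine ⟨N₁, h1, fun N _ _ hN => ?_⟩
    obtain ⟨a', ha', ea⟩ := ha N hN
    exact ⟨-a', neg_mem ha', fun g => by rw [Pi.neg_apply, Pi.neg_apply, ea]⟩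

/-- saturation -/
theorem ev_sat {P Q : Fam K}
    (hs : ∀ (N : IntermediateField K (AlgebraicClosure K)) [FiniteDimensional K N] [Normal K N]
      (f : (N ≃ₐ[K] N) → ℂ) (m : ℕ), 0 < m → f ∈ P N → m • f ∈ Q N → f ∈ Q N)
    {f : (bt K).fixingSubgroup → ℂ} (hf : f ∈ Ev P) {m : ℕ} (hm : 0 < m) (h : m • f ∈ Ev Q) :
    f ∈ Ev Q := by
  obtain ⟨N₁, h1, ha⟩ := hf
  obtain ⟨N₂, h2, hb⟩ := h
  refine ⟨N₁ ⊔ N₂, IntermediateField.finiteDimensional_sup N₁ N₂, fun N _ _ hN => ?_⟩
  obtain ⟨a', ha', ea⟩ := ha N (le_sup_left.trans hN)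
  obtain ⟨b', hb', eb⟩ := hb N (le_sup_right.trans hN)
  refine ⟨a', hs N a' m hm ha' ?_, ea⟩
  have h3 : m • a' = b' := by
    funext y
    obtain ⟨g, rfl⟩ := rN_surjective (N := N) y
    have h4 := eb g
    rw [Pi.smul_apply, ea] at h4
    exact h4
  rw [h3]
  exact hb'

/-- a function `χ` on `Gal(K̄/F₀)` is the inflation of the character of the representation `ρ` of
`Gal(N/F₀)`: `ρ.character y = χ g` if `g` extends `y` -/
def HasChar {N F₀ : IntermediateField K (AlgebraicClosure K)} {U : Type} [AddCommGroup U]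
    [Module ℂ U] (ρ : Representation ℂ (N ≃ₐ[sb N F₀] N) U) (χ : F₀.fixingSubgroup → ℂ) : Prop :=
  ∀ (y : N ≃ₐ[sb N F₀] N) (g : F₀.fixingSubgroup),
    (∀ x : N, ((y x : N) : AlgebraicClosure K) = (g : Gal(AlgebraicClosure K/K)) x) →
      ρ.character y = χ g

section
variable {N F₀ : IntermediateField K (AlgebraicClosure K)} [FiniteDimensional K N] [Normal K N]

theorem rF_iff (hle : F₀ ≤ N) (y : N ≃ₐ[sb N F₀] N) (g : F₀.fixingSubgroup) :
    rF (mt_sb hle) g = y ↔
      ∀ x : N, ((y x : N) : AlgebraicClosure K) = (g : Gal(AlgebraicClosure K/K)) x := by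
  constructor
  · rintro rfl x
    exact rF_apply _ g x
  · intro h
    ext x
    rw [rF_apply, h]

theorem hasChar_iff (hle : F₀ ≤ N) {U : Type} [AddCommGroup U] [Module ℂ U]
    (ρ : Representation ℂ (N ≃ₐ[sb N F₀] N) U) (χ : F₀.fixingSubgroup → ℂ) :
    HasChar ρ χ ↔ ∀ g, ρ.character (rF (mt_sb hle) g) = χ g :=
  ⟨fun h g => h _ g ((rF_iff hle _ g).1 rfl), fun h y g hy => by
    rw [← (rF_iff hle y g).2 hy]
    exact h g⟩

/-- characters of the absolute Galois group which are trivial on `Gal(K̄/N)` come from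
representations of `Gal(N/F₀)` -/
theorem exists_rep (hle : F₀ ≤ N) {n : ℕ} (τ : F₀.fixingSubgroup →* GL (Fin n) ℂ)
    (hτ : ∀ g : F₀.fixingSubgroup, (g : Gal(AlgebraicClosure K/K)) ∈ N.fixingSubgroup → τ g = 1) :
    ∃ ρ : Representation ℂ (N ≃ₐ[sb N F₀] N) (Fin n → ℂ),
      HasChar ρ fun g => (τ g : Matrix (Fin n) (Fin n) ℂ).trace := by
  have hker : (rF (mt_sb hle)).ker ≤ τ.ker := by
    intro g hg
    exact hτ g ((rF_eq_one (mt_sb hle) g).1 hg)
  let m2 : GL (Fin n) ℂ →* Module.End ℂ (Fin n → ℂ) :=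
    ((Matrix.toLinAlgEquiv' : Matrix (Fin n) (Fin n) ℂ ≃ₐ[ℂ] _) : Matrix (Fin n) (Fin n) ℂ →* _).comp
      (Units.coeHom _)
  let τ' : (N ≃ₐ[sb N F₀] N) →* GL (Fin n) ℂ :=
    (rF (mt_sb hle)).liftOfSurjective (rF_surjective (mt_sb hle)) ⟨τ, hker⟩
  refine ⟨m2.comp τ', (hasChar_iff hle _ _).2 fun g => ?_⟩
  have h1 : τ' (rF (mt_sb hle) g) = τ g :=
    MonoidHom.liftOfRightInverse_comp_apply _ _ _ ⟨τ, hker⟩ g
  unfold Representation.character
  change LinearMap.trace ℂ _ (Matrix.toLin' (τ' (rF (mt_sb hle) g) : Matrix (Fin n) (Fin n) ℂ)) = _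
  rw [Matrix.trace_toLin'_eq, h1]

/-- the induced characters -/
theorem ind_char (hle : F₀ ≤ N) {U : Type} [AddCommGroup U] [Module ℂ U] [FiniteDimensional ℂ U]
    {ρ : Representation ℂ (N ≃ₐ[sb N F₀] N) U} {χ : F₀.fixingSubgroup → ℂ} (h : HasChar ρ χ) :
    induced (bt K) F₀ χ = fun g => indj (rsc K (sb N F₀) N) ρ.character (rN N g) := by
  rw [← ind_match (mt_sb hle) (char_conj' ρ)]
  congr 1
  funext g
  exact ((hasChar_iff hle ρ χ).1 h g).symm

end

end

end Pool.Agent.Q20.RS
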