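import Pool.Agent.Q20.RS.Reg
import Pool.Agent.Q20.RS.Def2
import Pool.Agent.Q92.AR.ArtL
import Pool.Agent.TeamU.GalAct

/-!
# The values of an induced class function at the powers of a Frobenius element
-/

set_option autoImplicit false
set_option linter.unusedSectionVars false
set_option linter.deprecated false

namespace Pool.Agent.Q20.RS

open NumberField IsDedekindDomain Filter Pool.Agent.W401.Cheb Pool.Agent.W353.NF Pool.Agent.Q5.BR
  Pool.Agent.Q92.PA Pool.Agent.Q92.AR

section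
variable {K F M : Type} [Field K] [NumberField K] [Field F] [NumberField F] [Field M] [NumberField M]
  [Algebra K F] [Algebra K M] [Algebra F M] [IsScalarTower K F M]

theorem mem_range_rsc {g : M ≃ₐ[K] M} : (∃ y, rsc K F M y = g) ↔ g ∈ fixer K F M := by
  constructor
  · rintro ⟨y, rfl⟩ x
    exact y.commutes x
  · intro h
    refine ⟨{ g with commutes' := fun z => h z }, ?_⟩
    ext z
    rfl

variable [IsGalois K M] [IsGalois F M]

/-- **The values of an induced class function at the powers of a Frobenius element.** -/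
theorem indj_frob {v : HeightOneSpectrum (𝓞 K)} (hv : Unramified M v) {g : M ≃ₐ[K] M}
    (hg : IsFrobenius v g) (χ : (M ≃ₐ[F] M) → ℂ) (hχ : ∀ x y, χ (x⁻¹ * y * x) = χ y) (n : ℕ) :
    indj (rsc K F M) χ (g ^ n) = ∑ w ∈ above F v, if rdeg K w ∣ n then
      (rdeg K w : ℂ) * χ (frob M w ^ (n / rdeg K w)) else 0 := by
  classical
  have hcard : (Nat.card (fixer K F M) : ℂ) = (Nat.card (M ≃ₐ[F] M) : ℂ) := by
    congr 1
    refine (Nat.card_eq_of_bijective (fun y : M ≃ₐ[F] M =>
      (⟨rsc K F M y, mem_range_rsc.1 ⟨y, rfl⟩⟩ : fixer K F M)) ⟨fun a b h => ?_, fun g => ?_⟩).symm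
    · exact rsc_injective (congrArg Subtype.val h)
    · obtain ⟨y, hy⟩ := mem_range_rsc.2 g.2
      exact ⟨y, Subtype.ext hy⟩
  have hH : (Nat.card (fixer K F M) : ℂ) ≠ 0 := by exact_mod_cast Nat.card_pos.ne'
  obtain ⟨σ, Q, hQm, hQv, hQ⟩ := Pool.Agent.W401.Frob.exists_frob v
  obtain ⟨ι, hσ⟩ := exists_intertwine hv hg hQm hQv hQ
  have hQp : Q.IsPrime := hQm.isPrime
  have hpow := intertwine_pow hσ
  choose W hW1 hW2 using fun x : M ≃ₐ[K] M => exists_pr (K := K) (F := F) hQm hQv (ex F ι x)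
  -- membership in the fixer
  have hA : ∀ (x : M ≃ₐ[K] M) (m : ℕ), x⁻¹ * g ^ m * x ∈ fixer K F M ↔ rdeg K (W x) ∣ m := by
    intro x m
    rw [← fixed_iff (hv.sub (F := F)) hQm hQv hQ (hW1 x) (hW2 x) m, mem_fixer]
    constructor
    · intro h
      ext y
      change (σ ^ m) (ι (x (algebraMap F M y))) = ι (x (algebraMap F M y))
      rw [hpow]
      congr 1
      have h2 := congrArg x (h y)
      rw [AlgEquiv.mul_apply, AlgEquiv.mul_apply, ← AlgEquiv.mul_apply, mul_inv_cancel,
        AlgEquiv.one_apply] at h2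
      exact h2
    · intro h y
      have h1 : (σ ^ m) (ι (x (algebraMap F M y))) = ι (x (algebraMap F M y)) :=
        DFunLike.congr_fun h y
      rw [hpow] at h1
      rw [AlgEquiv.mul_apply, AlgEquiv.mul_apply, ι.injective h1, ← AlgEquiv.mul_apply,
        inv_mul_cancel, AlgEquiv.one_apply]
  -- the value of the class function
  have hB : ∀ x : M ≃ₐ[K] M, ∃ y : M ≃ₐ[F] M, rsc K F M y = x⁻¹ * g ^ (rdeg K (W x)) * x ∧
      ∀ k : ℕ, χ (y ^ k) = χ (frob M (W x) ^ k) := by
    intro x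
    obtain ⟨y, hy⟩ := mem_range_rsc.2 ((hA x _).2 (dvd_refl (rdeg K (W x))))
    refine ⟨y, hy, fun k => ?_⟩
    have h2 : ∀ z : M, y z = (x⁻¹ * g ^ (rdeg K (W x)) * x) z := fun z => by rw [← hy]; rfl
    have hyF : IsFrobenius (W x) y := by
      let P : Ideal (𝓞 M) := Q.comap (oi (ι.comp (x : M →ₐ[K] M)))
      have hPp : P.IsPrime := Ideal.comap_isPrime _ _
      have hPc : P.comap (algebraMap (𝓞 F) (𝓞 M)) = (W x).asIdeal := by
        ext a
        rw [Ideal.mem_comap, ← hW2 x a]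
        exact Iff.rfl
      have hP0 : P ≠ ⊥ := by
        intro h0
        apply (W x).ne_bot
        rw [← hPc, h0, ← RingHom.ker_eq_comap_bot]
        exact (RingHom.injective_iff_ker_eq_bot _).1
          (FaithfulSMul.algebraMap_injective (𝓞 F) (𝓞 M))
      refine ⟨P, hPp.isMaximal hP0, hPc, fun a => ?_⟩
      have hya : IsIntegral ℤ (y (a : M)) := a.2.map y
      obtain ⟨b, hb⟩ : ∃ b : 𝓞 M, (b : M) = y (a : M) := ⟨⟨y (a : M), hya⟩, rfl⟩
      refine ⟨b - a ^ Ideal.absNorm (W x).asIdeal, ?_, by rw [← hb]; rfl⟩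
      rw [Ideal.mem_comap, map_sub, map_pow]
      have h3 : oi (ι.comp (x : M →ₐ[K] M)) b =
          (σ ^ rdeg K (W x)) • oi (ι.comp (x : M →ₐ[K] M)) a := by
        apply RingOfIntegers.ext
        change ι (x (b : M)) = (σ ^ rdeg K (W x)) (ι (x (a : M)))
        rw [hpow, hb, h2, AlgEquiv.mul_apply, AlgEquiv.mul_apply, ← AlgEquiv.mul_apply,
          mul_inv_cancel, AlgEquiv.one_apply]
      rw [h3, absNorm_rdeg (K := K) (W x), hW1 x]
      exact powers_smul σ _ Q hQ (rdeg K (W x)) _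
    have hvw : Unramified M (W x) := Unramified.over (K := K) (by rw [hW1 x]; exact hv)
    obtain ⟨z, hz⟩ := isFrobenius_conj hvw hyF (frob_spec (W x))
    have h4 : (z⁻¹ * y * z) ^ k = z⁻¹ * y ^ k * z := by
      induction k with
      | zero => simp
      | succ k ih => rw [pow_succ, ih, pow_succ]; group
    rw [hz, h4, hχ]
  have hval : ∀ x : M ≃ₐ[K] M, (∑ h : M ≃ₐ[F] M,
      if rsc K F M h = x⁻¹ * g ^ n * x then χ h else 0) =
      if rdeg K (W x) ∣ n then χ (frob M (W x) ^ (n / rdeg K (W x))) else 0 := by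
    intro x
    by_cases hd : rdeg K (W x) ∣ n
    · obtain ⟨y, hy, hyχ⟩ := hB x
      have h5 : x⁻¹ * g ^ n * x = (x⁻¹ * g ^ rdeg K (W x) * x) ^ (n / rdeg K (W x)) := by
        rw [show x⁻¹ * g ^ rdeg K (W x) * x = x⁻¹ * g ^ rdeg K (W x) * (x⁻¹)⁻¹ by rw [inv_inv],
          conj_pow, ← pow_mul, Nat.mul_div_cancel' hd, inv_inv]
      have h6 : rsc K F M (y ^ (n / rdeg K (W x))) = x⁻¹ * g ^ n * x := by
        rw [map_pow, hy, ← h5]
      rw [if_pos hd, ← hyχ]
      have h7 : ∀ h : M ≃ₐ[F] M, (rsc K F M h = x⁻¹ * g ^ n * x) ↔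
          h = y ^ (n / rdeg K (W x)) := by
        intro h
        rw [← h6]
        exact ⟨fun e => rsc_injective e, fun e => by rw [e]⟩
      simp only [h7]
      rw [Finset.sum_ite_eq' Finset.univ, if_pos (Finset.mem_univ _)]
    · rw [if_neg hd]
      refine Finset.sum_eq_zero fun h _ => if_neg fun e => ?_
      exact hd ((hA x n).1 (mem_range_rsc.1 ⟨h, e⟩))
  unfold indj
  rw [Finset.sum_congr rfl fun x _ => hval x]
  have hfib : ∑ x : M ≃ₐ[K] M, (if rdeg K (W x) ∣ n then
      χ (frob M (W x) ^ (n / rdeg K (W x))) else 0) =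
      ∑ w ∈ above F v, ∑ x ∈ Finset.univ.filter (fun x => W x = w), (if rdeg K w ∣ n then
      χ (frob M w ^ (n / rdeg K w)) else 0) := by
    rw [← Finset.sum_fiberwise_of_maps_to (t := above F v) (g := W)
      (fun x _ => mem_above.2 (hW1 x))]
    refine Finset.sum_congr rfl fun w _ => Finset.sum_congr rfl fun x hx => ?_
    rw [(Finset.mem_filter.1 hx).2]
  rw [hfib, Finset.mul_sum]
  refine Finset.sum_congr rfl fun w hw => ?_
  rw [Finset.sum_const, nsmul_eq_mul]
  have hc : (Finset.univ.filter (fun x => W x = w)).card = rdeg K w * Nat.card (fixer K F M) := by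
    rw [← card_ex (F := F) hv hQm hQv hQ ι (mem_above.1 hw), ← Fintype.card_subtype,
      ← Nat.card_eq_fintype_card]
    refine Nat.card_congr (Equiv.subtypeEquivRight fun x => ?_)
    constructor
    · rintro rfl
      exact hW2 x
    · intro h
      apply HeightOneSpectrum.ext
      ext a
      rw [← hW2 x, h]
  rw [hc, ← hcard]
  split_ifs
  · push_cast
    field_simp
  · simp

end

end Pool.Agent.Q20.RS
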