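import Pool.Agent.Q20.RS.Cnt

/-!
# Stark's numbers at a fixed level
-/

set_option autoImplicit false
set_option linter.unusedSectionVars false

namespace Pool.Agent.Q20.RS

open NumberField IsDedekindDomain Pool.Agent.Q92.AR
open Representation (IntertwiningMap)

section
variable {K F M : Type} [Field K] [NumberField K] [Field F] [NumberField F] [Field M] [NumberField M]
  [Algebra K F] [Algebra K M] [Algebra F M] [IsScalarTower K F M]

theorem regul_congr {G : Type} [Group G] {U V : Type} [AddCommGroup U] [Module ℂ U]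
    [AddCommGroup V] [Module ℂ V] (ρ : Representation ℂ G U) {X X' : Representation ℂ G V}
    (h : X = X') (θ : IntertwiningMap X X) (θ' : IntertwiningMap X' X')
    (hθ : θ.toLinearMap = θ'.toLinearMap) : regul ρ X θ = regul ρ X' θ' := by
  subst h
  rw [IntertwiningMap.ext hθ]

variable [IsGalois K M] [IsGalois F M]

instance xc_fin (T : Finset (HeightOneSpectrum (𝓞 M))) : FiniteDimensional ℂ (XC T) := by
  classical
  refine FiniteDimensional.of_injective
    ({ toFun := fun a => (fun w : T => a.1 (.inl w.1), fun v : InfinitePlace M => a.1 (.inr v))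
       map_add' := fun _ _ => rfl
       map_smul' := fun _ _ => rfl } : XC T →ₗ[ℂ] (T → ℂ) × (InfinitePlace M → ℂ)) ?_
  intro a b h
  apply Subtype.ext
  funext w
  rcases w with w | v
  · by_cases hw : w ∈ T
    · exact congrFun (congrArg Prod.fst h) ⟨w, hw⟩
    · rw [a.2.1 w hw, b.2.1 w hw]
  · exact congrFun (congrArg Prod.snd h) v

/-- the virtual characters of `Gal(M/K)` for which Stark's numbers are defined -/
noncomputable def PP {T : Finset (HeightOneSpectrum (𝓞 M))} {hT : Stable K T}
    (θ : StarkMap hT) : AddSubgroup ((M ≃ₐ[K] M) → ℂ) := PR θ.map ⊓ PL K T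

/-- **Stark's numbers as a homomorphism** -/
noncomputable def Phi {T : Finset (HeightOneSpectrum (𝓞 M))} {hT : Stable K T}
    (θ : StarkMap hT) : PP θ →+ Additive ℂˣ :=
  (PhiR θ.map).comp (AddSubgroup.inclusion inf_le_left) -
    (PhiL K T).comp (AddSubgroup.inclusion inf_le_right)

theorem char_conj' {G U : Type} [Group G] [AddCommGroup U] [Module ℂ U] [FiniteDimensional ℂ U]
    (ρ : Representation ℂ G U) (x y : G) : ρ.character (x⁻¹ * y * x) = ρ.character y := by
  have h := Representation.char_conj ρ y x⁻¹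
  rwa [inv_inv] at h

/-- **Additivity and inductivity of Stark's numbers.** -/
theorem starkA_eq {T : Finset (HeightOneSpectrum (𝓞 M))} {hT : Stable K T}
    (hR : ContainsRamified K T) (θ : StarkMap hT) (hT' : Stable F T) (hR' : ContainsRamified F T)
    {U : Type} [AddCommGroup U] [Module ℂ U] [FiniteDimensional ℂ U]
    (ρ : Representation ℂ (M ≃ₐ[F] M) U) : ∃ h : indj (rsc K F M) ρ.character ∈ PP θ,
      starkA (θ.res hT') ρ = (((Phi θ ⟨indj (rsc K F M) ρ.character, h⟩).toMul : ℂˣ) : ℂ) := by
  obtain ⟨h1, h2⟩ := leading_ind hT hR (χ := ρ.character) (char_conj' ρ) (char_mem hT' hR' ρ)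
  have h3 := ind_mem (rsc K F M) θ.map ρ
  refine ⟨⟨h3, h1⟩, ?_⟩
  have h4 : regul ρ (XRep hT') (θ.res hT').map =
      (((PhiR θ.map ⟨indj (rsc K F M) ρ.character, h3⟩).toMul : ℂˣ) : ℂ) := by
    rw [← regul_eq (rsc K F M) θ.bijective ρ]
    exact regul_congr ρ (xrep_rsc hT hT') _ _ rfl
  unfold starkA
  rw [h4, h2]
  change _ = (((PhiR θ.map ⟨indj (rsc K F M) ρ.character, h3⟩ -
    PhiL K T ⟨indj (rsc K F M) ρ.character, h1⟩).toMul : ℂˣ) : ℂ)
  rw [toMul_sub, Units.val_div_eq_div_val]

end

end Pool.Agent.Q20.RS
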