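import Pool.Agent.Q20.RS.Frb

/-!
# Inductivity and additivity of the Artin L-functions
-/

set_option autoImplicit false
set_option linter.unusedSectionVars false

namespace Pool.Agent.Q20.RS

open NumberField IsDedekindDomain Filter Topology Pool.Agent.H921R2.TatePole Pool.Agent.W353.NF
  Pool.Agent.Q5.BR Pool.Agent.H541R3.ART Pool.Agent.Q92.AR

section
variable {F M : Type} [Field F] [NumberField F] [Field M] [NumberField M] [Algebra F M]

/-- the prime `v` of `F` is in `S` -/
def InS (T : Finset (HeightOneSpectrum (𝓞 M))) (v : HeightOneSpectrum (𝓞 F)) : Prop :=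
  ∃ w ∈ T, w.under (𝓞 F) = v

theorem lTerm_of_not {T : Finset (HeightOneSpectrum (𝓞 M))} {v : HeightOneSpectrum (𝓞 F)}
    (h : ¬ InS T v) (χ : (M ≃ₐ[F] M) → ℂ) (s : ℂ) (n : ℕ) :
    lTerm T χ s (v, n) = χ (frob M v ^ (n + 1)) /
      (((n + 1 : ℕ) : ℂ) * (Ideal.absNorm v.asIdeal : ℂ) ^ (((n + 1 : ℕ) : ℂ) * s)) := if_neg h

theorem lTerm_of_mem {T : Finset (HeightOneSpectrum (𝓞 M))} {v : HeightOneSpectrum (𝓞 F)}
    (h : InS T v) (χ : (M ≃ₐ[F] M) → ℂ) (s : ℂ) (n : ℕ) : lTerm T χ s (v, n) = 0 := if_pos h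

theorem lTerm_summable (T : Finset (HeightOneSpectrum (𝓞 M))) (χ : (M ≃ₐ[F] M) → ℂ) {s : ℂ}
    (hs : 1 < s.re) : Summable (lTerm T χ s) := by
  classical
  obtain ⟨C, hC0, hC⟩ := exists_bound χ
  refine Summable.of_norm_bounded ((summable_geo (F := F) hs).mul_left C) fun x => ?_
  unfold lTerm
  split_ifs
  · rw [norm_zero]
    positivity
  · exact (norm_div_le _ _ _ _).trans (mul_le_mul_of_nonneg_right (hC _) (by positivity))

theorem artinLS_add (T : Finset (HeightOneSpectrum (𝓞 M))) (χ χ' : (M ≃ₐ[F] M) → ℂ) {s : ℂ}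
    (hs : 1 < s.re) : artinLS T (χ + χ') s = artinLS T χ s * artinLS T χ' s := by
  unfold artinLS
  rw [← Complex.exp_add, ← (lTerm_summable T χ hs).tsum_add (lTerm_summable T χ' hs)]
  congr 1
  refine tsum_congr fun x => ?_
  unfold lTerm
  split_ifs
  · rw [add_zero]
  · rw [Pi.add_apply, add_div]

theorem artinLS_neg (T : Finset (HeightOneSpectrum (𝓞 M))) (χ : (M ≃ₐ[F] M) → ℂ) (s : ℂ) :
    artinLS T (-χ) s = (artinLS T χ s)⁻¹ := by
  unfold artinLS
  rw [← Complex.exp_neg, ← tsum_neg]
  congr 1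
  refine tsum_congr fun x => ?_
  unfold lTerm
  split_ifs
  · rw [neg_zero]
  · rw [Pi.neg_apply, neg_div]

end

section
variable {K F M : Type} [Field K] [NumberField K] [Field F] [NumberField F] [Field M] [NumberField M]
  [Algebra K F] [Algebra K M] [Algebra F M] [IsScalarTower K F M]

/-- the primes of `S` over `F` are those above the primes of `S` over `K` -/
theorem inS_iff [IsGalois K M] {T : Finset (HeightOneSpectrum (𝓞 M))} (hT : Stable K T)
    (w : HeightOneSpectrum (𝓞 F)) : InS T w ↔ InS T (w.under (𝓞 K)) := by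
  constructor
  · rintro ⟨u, hu, rfl⟩
    exact ⟨u, hu, (under_under (K := K) (F := F) u).symm⟩
  · rintro ⟨u, hu, huw⟩
    have hwm : w.asIdeal.IsMaximal := w.isMaximal
    obtain ⟨P, hP, hPw⟩ := Ideal.exists_ideal_over_maximal_of_isIntegral (S := 𝓞 M) w.asIdeal (by
      rw [(RingHom.injective_iff_ker_eq_bot _).1 (FaithfulSMul.algebraMap_injective (𝓞 F) (𝓞 M))]
      exact bot_le)
    have hP0 : P ≠ ⊥ := by
      rintro rfl
      apply w.ne_bot
      rw [← hPw, ← RingHom.ker_eq_comap_bot]
      exact (RingHom.injective_iff_ker_eq_bot _).1 (FaithfulSMul.algebraMap_injective (𝓞 F) (𝓞 M))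
    let u' : HeightOneSpectrum (𝓞 M) := ⟨P, hP.isPrime, hP0⟩
    have hu'w : u'.under (𝓞 F) = w := HeightOneSpectrum.ext hPw
    have h1 : u'.under (𝓞 K) = u.under (𝓞 K) := by
      rw [huw, ← under_under (K := K) (F := F) u', hu'w]
    obtain ⟨g, hg⟩ := Pool.Agent.TeamU.exists_act (k := K) (P := u) (Q := u')
      (v := u.under (𝓞 K)) rfl (by
        change u'.asIdeal.comap _ = _
        exact congrArg HeightOneSpectrum.asIdeal h1)
    have h2 : pra g u = u' := hg
    exact ⟨u', h2 ▸ hT g u hu, hu'w⟩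

theorem unram_of_notInS {T : Finset (HeightOneSpectrum (𝓞 M))} (hR : ContainsRamified K T)
    {v : HeightOneSpectrum (𝓞 K)} (h : ¬ InS T v) : Unramified M v := by
  by_contra h1
  exact h (hR v h1)

/-- **Inductivity.** -/
theorem artinLS_ind [IsGalois K M] [IsGalois F M] {T : Finset (HeightOneSpectrum (𝓞 M))}
    (hT : Stable K T) (hR : ContainsRamified K T) (χ : (M ≃ₐ[F] M) → ℂ)
    (hχ : ∀ x y, χ (x⁻¹ * y * x) = χ y) {s : ℂ} (hs : 1 < s.re) :
    artinLS T (indj (rsc K F M) χ) s = artinLS T χ s := by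
  classical
  unfold artinLS
  congr 1
  have h1 := lTerm_summable T χ hs
  have h2 : HasSum (fun w : HeightOneSpectrum (𝓞 F) => ∑' n, lTerm T χ s (w, n))
      (∑' x, lTerm T χ s x) := h1.hasSum.prod_fiberwise fun w =>
        (h1.comp_injective (i := fun n => (w, n)) (fun a b h => congrArg Prod.snd h)).hasSum
  have h3 := hasSum_above (K := K) h2.summable
  rw [h2.tsum_eq] at h3
  have h4 := (lTerm_summable T (indj (rsc K F M) χ) hs).hasSum.prod_fiberwise
    (g := fun v => ∑ w ∈ above F v, ∑' n, lTerm T χ s (w, n)) ?_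
  · exact h4.unique h3
  intro v
  by_cases hv : InS T v
  · have e1 : (fun n => lTerm T (indj (rsc K F M) χ) s (v, n)) = fun _ => 0 := by
      funext n
      exact lTerm_of_mem hv _ s n
    have e2 : (∑ w ∈ above F v, ∑' n, lTerm T χ s (w, n)) = 0 := by
      refine Finset.sum_eq_zero fun w hw => ?_
      have hw' : InS T w := (inS_iff hT w).2 (by rw [mem_above.1 hw]; exact hv)
      have e3 : (fun n => lTerm T χ s (w, n)) = fun _ => 0 := by
        funext n
        exact lTerm_of_mem hw' _ s n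
      rw [e3, tsum_zero]
    rw [e1, e2]
    exact hasSum_zero
  · have hvu : Unramified M v := unram_of_notInS hR hv
    have h5 : HasSum (fun n => ∑ w ∈ above F v, (if rdeg K w ∣ n + 1 then
        (rdeg K w : ℂ) * χ (frob M w ^ ((n + 1) / rdeg K w)) else 0) *
        ((((nm v : ℂ) ^ (-s)) ^ (n + 1)) / ((n + 1 : ℕ) : ℂ)))
        (∑ w ∈ above F v, ∑' n, lTerm T χ s (w, n)) := by
      refine hasSum_sum fun w hw => ?_
      have hwv := mem_above.1 hw
      have hwS : ¬ InS T w := fun h => hv (by rw [← hwv]; exact (inS_iff hT w).1 h)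
      have hd : 0 < rdeg K w := rdeg_pos w
      have hnw : nm w = nm v ^ rdeg K w := by
        have h := absNorm_rdeg (K := K) w
        rw [hwv] at h
        exact h
      have h6 := (h1.comp_injective (i := fun n => (w, n))
        (fun a b h => congrArg Prod.snd h)).hasSum
      have hinj : Function.Injective fun m : ℕ => rdeg K w * (m + 1) - 1 := by
        intro m m' hmm
        have h3 : rdeg K w * (m + 1) - 1 + 1 = rdeg K w * (m + 1) :=
          Nat.sub_add_cancel (Nat.mul_pos hd m.succ_pos)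
        have h4 : rdeg K w * (m' + 1) - 1 + 1 = rdeg K w * (m' + 1) :=
          Nat.sub_add_cancel (Nat.mul_pos hd m'.succ_pos)
        have h5 : rdeg K w * (m + 1) = rdeg K w * (m' + 1) := by
          rw [← h3, ← h4]
          exact congrArg (· + 1) hmm
        have := Nat.eq_of_mul_eq_mul_left hd h5
        omega
      rw [← hinj.hasSum_iff]
      · refine h6.congr_fun fun m => ?_
        simp only [Function.comp]
        have h3 : rdeg K w * (m + 1) - 1 + 1 = rdeg K w * (m + 1) :=
          Nat.sub_add_cancel (Nat.mul_pos hd m.succ_pos)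
        rw [lTerm_of_not hwS]
        have h8 : (Ideal.absNorm w.asIdeal : ℂ) = (nm w : ℂ) := rfl
        rw [h8, cpow_succ_mul, div_mul_eq_div_div_swap, div_inv_eq_mul, h3,
          if_pos (Dvd.intro _ rfl), Nat.mul_div_cancel_left _ hd, hnw, Nat.cast_pow, Nat.cast_mul]
        have h7 : ((nm v : ℂ) ^ rdeg K w) ^ (-s) = ((nm v : ℂ) ^ (-s)) ^ rdeg K w := by
          rw [← Complex.natCast_cpow_natCast_mul, ← Complex.cpow_nat_mul]
        rw [h7, ← pow_mul]
        have hdc : (rdeg K w : ℂ) ≠ 0 := by exact_mod_cast hd.ne'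
        have hmc : ((m + 1 : ℕ) : ℂ) ≠ 0 := by exact_mod_cast m.succ_ne_zero
        field_simp
      · intro n hn
        have : ¬ rdeg K w ∣ n + 1 := by
          rintro ⟨c, hc⟩
          apply hn
          have hc0 : c ≠ 0 := by
            rintro rfl
            omega
          obtain ⟨m, rfl⟩ := Nat.exists_eq_succ_of_ne_zero hc0
          refine ⟨m, ?_⟩
          change rdeg K w * (m + 1) - 1 = n
          rw [← Nat.succ_eq_add_one m, ← hc]
          omega
        simp only [if_neg this, zero_mul]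
    refine h5.congr_fun fun n => ?_
    rw [lTerm_of_not hv, indj_frob hvu (frob_spec v) χ hχ, ← Finset.sum_mul]
    have h8 : (Ideal.absNorm v.asIdeal : ℂ) = (nm v : ℂ) := rfl
    rw [h8, cpow_succ_mul, div_mul_eq_div_div_swap, div_inv_eq_mul, mul_div_assoc]

end

end Pool.Agent.Q20.RS
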