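import Pool.Agent.Q20.RS.Evt

/-!
# Stark's numbers and Artin L-functions of characters of absolute Galois groups
-/

set_option autoImplicit false
set_option linter.unusedSectionVars false

namespace Pool.Agent.Q20.RS

open NumberField IsDedekindDomain Pool.Agent.Q92.AR
open Pool.Agent.Q246.BI (Smooth IsCharacter induced)
open Pool.Agent.Q20.TR (bt)
open Representation (IntertwiningMap)

section defs
variable {K : Type} [Field K] [NumberField K]

/-- **Levels**: a finite normal extension `N` of `K` in `K̄`, a finite set `T` of primes of `N` which is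
stable under `Gal(N/K)` and contains a prime above every prime of `K` which ramifies in `N`, and a map
`θ = λ_S ∘ φ_S` -/
structure Level (K : Type) [Field K] [NumberField K] : Type where
  /-- the field -/
  N : IntermediateField K (AlgebraicClosure K)
  [fin : FiniteDimensional K N]
  [nor : Normal K N]
  /-- the finite places above `S` -/
  T : Finset (HeightOneSpectrum (𝓞 N))
  stable : Stable K T
  ram : ContainsRamified K T
  /-- the map `λ_S ∘ φ_S` -/
  θ : StarkMap stable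

attribute [instance] Level.fin Level.nor

/-- `z` is Stark's number `A_S(χ, φ)` of the function `χ` on `Gal(K̄/F₀)`, which is the inflation of the
character of a representation `ρ` of `Gal(N/F₀)` -/
def Level.IsA (ℓ : Level K) {F₀ : IntermediateField K (AlgebraicClosure K)}
    (χ : F₀.fixingSubgroup → ℂ) (z : ℂ) : Prop :=
  ∃ (n : ℕ) (ρ : Representation ℂ (ℓ.N ≃ₐ[sb ℓ.N F₀] ℓ.N) (Fin n → ℂ)), HasChar ρ χ ∧
    z = starkA (ℓ.θ.res (F := sb ℓ.N F₀) ℓ.stable.tower) ρ

open scoped Classical in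
/-- **Stark's number** `A_S(χ, φ)` of a character `χ` of `Gal(K̄/F₀)` at the level `ℓ` -/
noncomputable def Level.A (ℓ : Level K) {F₀ : IntermediateField K (AlgebraicClosure K)}
    (χ : F₀.fixingSubgroup → ℂ) : ℂ :=
  if h : ∃ z, ℓ.IsA χ z then h.choose else 0

open scoped Classical in
/-- the function on `Gal(N/F₀)` with inflation `χ` -/
noncomputable def Level.fn (ℓ : Level K) {F₀ : IntermediateField K (AlgebraicClosure K)}
    (χ : F₀.fixingSubgroup → ℂ) (y : ℓ.N ≃ₐ[sb ℓ.N F₀] ℓ.N) : ℂ :=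
  if h : ∃ g : F₀.fixingSubgroup, ∀ x : ℓ.N,
    ((y x : ℓ.N) : AlgebraicClosure K) = (g : Gal(AlgebraicClosure K/K)) x then χ h.choose else 0

/-- **The Artin L-function** `L_S(s, χ)` of a character `χ` of `Gal(K̄/F₀)` at the level `ℓ`, `Re s > 1` -/
noncomputable def Level.L (ℓ : Level K) {F₀ : IntermediateField K (AlgebraicClosure K)}
    (χ : F₀.fixingSubgroup → ℂ) (s : ℂ) : ℂ := artinLS ℓ.T (ℓ.fn χ) s

/-- linear characters with an exponent -/
structure Term (K : Type) [Field K] [NumberField K] : Type where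
  /-- the field -/
  F : IntermediateField K (AlgebraicClosure K)
  /-- the linear character -/
  ψ : F.fixingSubgroup →* ℂˣ
  /-- the exponent -/
  e : ℤ

/-- the values of the linear character -/
noncomputable def Term.fn (t : Term K) : t.F.fixingSubgroup → ℂ := fun g => ((t.ψ g : ℂˣ) : ℂ)

/-- the term is defined at the level `N` -/
structure Term.At (t : Term K) (N : IntermediateField K (AlgebraicClosure K)) : Prop where
  le : t.F ≤ N
  triv : ∀ g : t.F.fixingSubgroup, (g : Gal(AlgebraicClosure K/K)) ∈ N.fixingSubgroup → t.ψ g = 1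

end defs

section
variable {K : Type} [Field K] [NumberField K]

theorem HasChar.unique {N F₀ : IntermediateField K (AlgebraicClosure K)} [FiniteDimensional K N]
    [Normal K N] (hle : F₀ ≤ N) {U U' : Type} [AddCommGroup U]
    [Module ℂ U] [AddCommGroup U'] [Module ℂ U'] {ρ : Representation ℂ (N ≃ₐ[sb N F₀] N) U}
    {ρ' : Representation ℂ (N ≃ₐ[sb N F₀] N) U'} {χ : F₀.fixingSubgroup → ℂ} (h : HasChar ρ χ)
    (h' : HasChar ρ' χ) : ρ.character = ρ'.character := by
  funext y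
  obtain ⟨g, rfl⟩ := rF_surjective (mt_sb hle) y
  rw [(hasChar_iff hle _ _).1 h, (hasChar_iff hle _ _).1 h']

variable (ℓ : Level K) {F₀ : IntermediateField K (AlgebraicClosure K)}

/-- **Stark's numbers at a level.** -/
theorem Level.A_eq (hle : F₀ ≤ ℓ.N) {U : Type} [AddCommGroup U] [Module ℂ U]
    [FiniteDimensional ℂ U] {ρ : Representation ℂ (ℓ.N ≃ₐ[sb ℓ.N F₀] ℓ.N) U}
    {χ : F₀.fixingSubgroup → ℂ} (h : HasChar ρ χ) :
    ∃ h : indj (rsc K (sb ℓ.N F₀) ℓ.N) ρ.character ∈ PP ℓ.θ,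
      ℓ.A χ = starkA (ℓ.θ.res (F := sb ℓ.N F₀) ℓ.stable.tower) ρ ∧ ℓ.A χ = val ℓ.θ ⟨_, h⟩ := by
  obtain ⟨h1, e1⟩ := starkA_val ℓ.ram ℓ.θ (F := sb ℓ.N F₀) ℓ.stable.tower ρ
  have key : ℓ.A χ = starkA (ℓ.θ.res (F := sb ℓ.N F₀) ℓ.stable.tower) ρ := by
    have hex : ∃ z, ℓ.IsA χ z := by
      obtain ⟨ρ', hρ'⟩ := exists_conj ρ (RingEquiv.refl ℂ)
      exact ⟨_, _, ρ', fun y g hy => (hρ' y).trans (h y g hy), rfl⟩
    unfold Level.A
    rw [dif_pos hex]
    obtain ⟨n, ρ', hρ', e⟩ := hex.choose_spec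
    rw [e]
    obtain ⟨h2, e2⟩ := starkA_val ℓ.ram ℓ.θ (F := sb ℓ.N F₀) ℓ.stable.tower ρ'
    rw [e1, e2]
    congr 1
    exact Subtype.ext (congrArg (indj (rsc K (sb ℓ.N F₀) ℓ.N)) (hρ'.unique hle h))
  exact ⟨h1, key, key.trans e1⟩

theorem Level.fn_eq (hle : F₀ ≤ ℓ.N) {U : Type} [AddCommGroup U] [Module ℂ U]
    {ρ : Representation ℂ (ℓ.N ≃ₐ[sb ℓ.N F₀] ℓ.N) U}
    {χ : F₀.fixingSubgroup → ℂ} (h : HasChar ρ χ) : ℓ.fn χ = ρ.character := by
  funext y
  have hex : ∃ g : F₀.fixingSubgroup, ∀ x : ℓ.N,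
      ((y x : ℓ.N) : AlgebraicClosure K) = (g : Gal(AlgebraicClosure K/K)) x := by
    obtain ⟨g, rfl⟩ := rF_surjective (mt_sb hle) y
    exact ⟨g, rF_apply _ g⟩
  unfold Level.fn
  rw [dif_pos hex]
  exact (h y _ hex.choose_spec).symm

/-- the characters in terms of the virtual characters at level `N` -/
theorem Level.exists_fn (hle : F₀ ≤ ℓ.N) {U : Type} [AddCommGroup U] [Module ℂ U]
    [FiniteDimensional ℂ U] {ρ : Representation ℂ (ℓ.N ≃ₐ[sb ℓ.N F₀] ℓ.N) U}
    {χ : F₀.fixingSubgroup → ℂ} (h : HasChar ρ χ) :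
    ∃ (f : (ℓ.N ≃ₐ[K] ℓ.N) → ℂ) (hf : f ∈ PP ℓ.θ), (∀ g, induced (bt K) F₀ χ g = f (rN ℓ.N g)) ∧
      ℓ.A χ = val ℓ.θ ⟨f, hf⟩ ∧ ∀ s : ℂ, 1 < s.re → ℓ.L χ s = artinLS ℓ.T f s := by
  obtain ⟨h1, -, e1⟩ := ℓ.A_eq hle h
  refine ⟨_, h1, fun g => congrFun (ind_char hle h) g, e1, fun s hs => ?_⟩
  unfold Level.L
  rw [ℓ.fn_eq hle h, artinLS_ind ℓ.stable ℓ.ram _ (char_conj' ρ) hs]

theorem artinLS_zero {M : Type} [Field M] [NumberField M] [Algebra K M]
    (T : Finset (HeightOneSpectrum (𝓞 M))) {s : ℂ} (hs : 1 < s.re) :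
    artinLS T (0 : (M ≃ₐ[K] M) → ℂ) s = 1 := by
  have h := artinLS_add T (0 : (M ≃ₐ[K] M) → ℂ) 0 hs
  rw [add_zero] at h
  have h0 : artinLS T (0 : (M ≃ₐ[K] M) → ℂ) s ≠ 0 := Complex.exp_ne_zero _
  exact (mul_eq_left₀ h0).1 h.symm

theorem artinLS_nsmul {M : Type} [Field M] [NumberField M] [Algebra K M]
    (T : Finset (HeightOneSpectrum (𝓞 M))) (f : (M ≃ₐ[K] M) → ℂ) (n : ℕ) {s : ℂ} (hs : 1 < s.re) :
    artinLS T (n • f) s = artinLS T f s ^ n := by
  induction n with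
  | zero => rw [zero_smul, pow_zero, artinLS_zero T hs]
  | succ n ih => rw [succ_nsmul, artinLS_add T _ _ hs, ih, pow_succ]

theorem artinLS_zsmul {M : Type} [Field M] [NumberField M] [Algebra K M]
    (T : Finset (HeightOneSpectrum (𝓞 M))) (f : (M ≃ₐ[K] M) → ℂ) (n : ℤ) {s : ℂ} (hs : 1 < s.re) :
    artinLS T (n • f) s = artinLS T f s ^ n := by
  cases n with
  | ofNat n =>
    rw [Int.ofNat_eq_natCast, natCast_zsmul, zpow_natCast, artinLS_nsmul T f n hs]
  | negSucc n =>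
    rw [negSucc_zsmul, zpow_negSucc, artinLS_neg, artinLS_nsmul T f _ hs]

theorem Term.At.exists_rep {t : Term K} {N : IntermediateField K (AlgebraicClosure K)}
    [FiniteDimensional K N] [Normal K N] (h : t.At N) :
    ∃ ρ : Representation ℂ (N ≃ₐ[sb N t.F] N) (Fin 1 → ℂ), HasChar ρ t.fn := by
  obtain ⟨ρ, hρ⟩ := RS.exists_rep h.le
    ((Units.map (Matrix.scalar (Fin 1) (α := ℂ)).toMonoidHom).comp t.ψ)
    fun g hg => by rw [MonoidHom.comp_apply, h.triv g hg, map_one]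
  refine ⟨ρ, fun y g hy => ?_⟩
  rw [hρ y g hy]
  change (Matrix.scalar (Fin 1) ((t.ψ g : ℂˣ) : ℂ)).trace = ((t.ψ g : ℂˣ) : ℂ)
  simp [Matrix.trace]

/-- **Product formulas at a level.** -/
theorem Level.prod (l : List (Term K)) (hl : ∀ t ∈ l, t.At ℓ.N) (f : (ℓ.N ≃ₐ[K] ℓ.N) → ℂ)
    (hf : ∀ g, (l.map fun t => t.e • induced (bt K) t.F t.fn).sum g = f (rN ℓ.N g)) :
    ∃ h : f ∈ PP ℓ.θ, val ℓ.θ ⟨f, h⟩ = (l.map fun t => ℓ.A t.fn ^ t.e).prod ∧
      ∀ s : ℂ, 1 < s.re → artinLS ℓ.T f s = (l.map fun t => ℓ.L t.fn s ^ t.e).prod := by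
  induction l generalizing f with
  | nil =>
    have h0 : f = 0 := by
      funext y
      obtain ⟨g, rfl⟩ := rN_surjective (N := ℓ.N) y
      rw [← hf g]
      rfl
    subst h0
    refine ⟨zero_mem _, ?_, fun s hs => ?_⟩
    · exact val_zero ℓ.θ
    · rw [artinLS_zero ℓ.T hs]
      rfl
  | cons t l ih =>
    obtain ⟨ρ, hρ⟩ := (hl t List.mem_cons_self).exists_rep
    obtain ⟨f₁, hf₁, e1, e2, e3⟩ := ℓ.exists_fn (hl t List.mem_cons_self).le hρ
    obtain ⟨h3, e4, e5⟩ := ih (fun t' ht' => hl t' (List.mem_cons_of_mem _ ht')) (f - t.e • f₁)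
      (fun g => by
        have h4 := hf g
        rw [List.map_cons, List.sum_cons, Pi.add_apply] at h4
        rw [Pi.sub_apply, ← h4, Pi.smul_apply, Pi.smul_apply, ← e1, add_sub_cancel_left])
    have h5 : f = t.e • f₁ + (f - t.e • f₁) := (add_sub_cancel _ _).symm
    have h6 : t.e • f₁ ∈ PP ℓ.θ := AddSubgroup.zsmul_mem _ hf₁ _
    have h7 : f ∈ PP ℓ.θ := by
      rw [h5]
      exact add_mem h6 h3
    refine ⟨h7, ?_, fun s hs => ?_⟩
    · have h8 : (⟨f, h7⟩ : PP ℓ.θ) = t.e • ⟨f₁, hf₁⟩ + ⟨f - t.e • f₁, h3⟩ := Subtype.ext h5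
      rw [h8, val_add, val_zsmul, e4, List.map_cons, List.prod_cons, e2]
    · conv_lhs => rw [h5]
      rw [artinLS_add _ _ _ hs, artinLS_zsmul _ _ _ hs, e5 s hs, List.map_cons, List.prod_cons,
        e3 s hs]

/-- elements of the closure as lists -/
theorem exists_list {P : ∀ F : IntermediateField K (AlgebraicClosure K),
    (F.fixingSubgroup →* ℂˣ) → Prop} {f : (bt K).fixingSubgroup → ℂ}
    (hf : f ∈ AddSubgroup.closure {f | ∃ (F : IntermediateField K (AlgebraicClosure K))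
      (ψ : F.fixingSubgroup →* ℂˣ), P F ψ ∧ f = induced (bt K) F fun g => ((ψ g : ℂˣ) : ℂ)}) :
    ∃ l : List (Term K), (∀ t ∈ l, P t.F t.ψ) ∧
      (l.map fun t => t.e • induced (bt K) t.F t.fn).sum = f := by
  induction hf using AddSubgroup.closure_induction with
  | mem f hf =>
    obtain ⟨F, ψ, h, rfl⟩ := hf
    refine ⟨[⟨F, ψ, 1⟩], fun t ht => ?_, ?_⟩
    · rw [List.mem_singleton] at ht
      subst ht
      exact h
    · rw [List.map_singleton, List.sum_singleton, one_smul]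
      rfl
  | zero => exact ⟨[], fun t ht => absurd ht List.not_mem_nil, rfl⟩
  | add x y _ _ hx hy =>
    obtain ⟨a, ha, ea⟩ := hx
    obtain ⟨b, hb, eb⟩ := hy
    refine ⟨a ++ b, fun t ht => ?_, ?_⟩
    · rcases List.mem_append.1 ht with ht | ht
      · exact ha t ht
      · exact hb t ht
    · rw [List.map_append, List.sum_append, ea, eb]
  | neg x _ hx =>
    obtain ⟨a, ha, ea⟩ := hx
    refine ⟨a.map fun t => ⟨t.F, t.ψ, -t.e⟩, fun t ht => ?_, ?_⟩
    · obtain ⟨t', ht', rfl⟩ := List.mem_map.1 ht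
      exact ha t' ht'
    · rw [List.map_map, ← ea]
      clear ea ha
      induction a with
      | nil => exact neg_zero.symm
      | cons t a ih =>
        rw [List.map_cons, List.sum_cons, ih, List.map_cons, List.sum_cons, neg_add]
        congr 1
        exact neg_smul _ _

/-- lists of terms are defined at all sufficiently large levels -/
theorem exists_level (l : List (Term K)) (hl : ∀ t ∈ l, FiniteDimensional K t.F ∧ Smooth t.F t.ψ) :
    ∃ N₀ : IntermediateField K (AlgebraicClosure K), FiniteDimensional K N₀ ∧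
      ∀ N : IntermediateField K (AlgebraicClosure K), N₀ ≤ N → ∀ t ∈ l, t.At N := by
  induction l with
  | nil => exact ⟨⊥, inferInstance, fun _ _ t ht => absurd ht List.not_mem_nil⟩
  | cons t l ih =>
    obtain ⟨N₁, h1, h2⟩ := ih fun t' ht' => hl t' (List.mem_cons_of_mem _ ht')
    obtain ⟨h3, E, h4, h5⟩ := hl t List.mem_cons_self
    have h6 : FiniteDimensional K (t.F ⊔ E : IntermediateField K (AlgebraicClosure K)) :=
      IntermediateField.finiteDimensional_sup _ _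
    refine ⟨(t.F ⊔ E) ⊔ N₁, IntermediateField.finiteDimensional_sup _ _, fun N hN t' ht' => ?_⟩
    rcases List.mem_cons.1 ht' with rfl | ht'
    · refine ⟨(le_sup_left.trans le_sup_left).trans hN, fun g hg => h5 g ?_⟩
      exact IntermediateField.fixingSubgroup_antitone
        ((le_sup_right.trans le_sup_left).trans hN) hg
    · exact h2 N (le_sup_right.trans hN) t' ht'

end

end Pool.Agent.Q20.RS
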