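import Pool.Agent.Q20.RS.Lev
import Pool.Agent.Q20.TR.Par

/-!
# From the absolute Galois group to finite levels
-/

set_option autoImplicit false
set_option linter.unusedSectionVars false

namespace Pool.Agent.Q20.RS

open NumberField IsDedekindDomain Pool.Agent.Q92.AR
open Pool.Agent.Q246.BI (Smooth IsCharacter)
open Pool.Agent.Q20.TR (bt)
open Pool.Agent.Q20.LG (RChar)

section
variable {K : Type} [Field K] [NumberField K]

instance numF (N : IntermediateField K (AlgebraicClosure K)) [FiniteDimensional K N] :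
    NumberField N := NumberField.of_module_finite K N

variable (N : IntermediateField K (AlgebraicClosure K)) [FiniteDimensional K N] [Normal K N]

instance galN : IsGalois K N where

/-- restriction to `N` -/
noncomputable def rN : (bt K).fixingSubgroup →* (N ≃ₐ[K] N) :=
  (AlgEquiv.restrictNormalHom N).comp (bt K).fixingSubgroup.subtype

variable {N}

theorem rN_apply (g : (bt K).fixingSubgroup) (x : N) :
    ((rN N g x : N) : AlgebraicClosure K) = (g : Gal(AlgebraicClosure K/K)) x :=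
  AlgEquiv.restrictNormal_commutes (g : Gal(AlgebraicClosure K/K)) N x

theorem mem_bt (g : Gal(AlgebraicClosure K/K)) : g ∈ (bt K).fixingSubgroup := by
  rw [IntermediateField.mem_fixingSubgroup_iff]
  intro z hz
  obtain ⟨z, rfl⟩ := IntermediateField.mem_bot.1 hz
  exact g.commutes z

theorem rN_surjective : Function.Surjective (rN N) := by
  intro g
  obtain ⟨h, hh⟩ := AlgEquiv.restrictNormalHom_surjective (F := K) (K₁ := N)
    (AlgebraicClosure K) g
  exact ⟨⟨h, mem_bt h⟩, hh⟩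

/-- the field `F` between `K` and `N`, as a subfield of `N` and of the algebraic closure -/
structure Mt (N F₀ : IntermediateField K (AlgebraicClosure K)) (F : IntermediateField K N) :
    Prop where
  le : F₀ ≤ N
  mem : ∀ x : N, x ∈ F ↔ (x : AlgebraicClosure K) ∈ F₀

theorem exists_mt (N F₀ : IntermediateField K (AlgebraicClosure K)) (hle : F₀ ≤ N) :
    ∃ F : IntermediateField K N, Mt N F₀ F :=
  ⟨F₀.comap N.val, hle, fun _ => Iff.rfl⟩

theorem exists_mt' (N : IntermediateField K (AlgebraicClosure K)) (F : IntermediateField K N) :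
    ∃ F₀ : IntermediateField K (AlgebraicClosure K), Mt N F₀ F := by
  refine ⟨F.map N.val, ?_, fun x => ?_⟩
  · rintro _ ⟨y, _, rfl⟩
    exact y.2
  · constructor
    · intro hx
      exact ⟨x, hx, rfl⟩
    · rintro ⟨y, hy, hyx⟩
      have : y = x := Subtype.ext hyx
      rwa [← this]

variable {F₀ : IntermediateField K (AlgebraicClosure K)} {F : IntermediateField K N}

/-- restriction to `N` -/
noncomputable def rF (h : Mt N F₀ F) : F₀.fixingSubgroup →* (N ≃ₐ[F] N) where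
  toFun g := AlgEquiv.ofRingEquiv (f := ((rN N ⟨g, mem_bt _⟩ : N ≃ₐ[K] N) : N ≃+* N)) (by
    intro x
    apply Subtype.ext
    change ((rN N ⟨g, mem_bt _⟩ (x : N) : N) : AlgebraicClosure K) = ((x : N) : AlgebraicClosure K)
    rw [rN_apply]
    exact (IntermediateField.mem_fixingSubgroup_iff _ _).1 g.2 _ ((h.mem _).1 x.2))
  map_one' := by
    ext x
    change ((rN N ⟨1, mem_bt _⟩ x : N) : AlgebraicClosure K) = (x : AlgebraicClosure K)
    rw [rN_apply]
    rfl
  map_mul' := fun a b => by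
    ext x
    change ((rN N ⟨(a * b : F₀.fixingSubgroup), mem_bt _⟩ x : N) : AlgebraicClosure K) =
      ((rN N ⟨a, mem_bt _⟩ (rN N ⟨b, mem_bt _⟩ x) : N) : AlgebraicClosure K)
    rw [rN_apply, rN_apply, rN_apply]
    rfl

theorem rsc_rF (h : Mt N F₀ F) (g : F₀.fixingSubgroup) :
    rsc K F N (rF h g) = rN N ⟨g, mem_bt _⟩ := by
  ext x
  rfl

theorem rF_apply (h : Mt N F₀ F) (g : F₀.fixingSubgroup) (x : N) :
    ((rF h g x : N) : AlgebraicClosure K) = (g : Gal(AlgebraicClosure K/K)) x := by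
  have h1 : rF h g x = rN N ⟨g, mem_bt _⟩ x := by
    rw [← rsc_rF h g]
    rfl
  rw [h1, rN_apply]

/-- elements of the absolute group which restrict to elements of the group of `N/F` -/
theorem mem_of_rN (h : Mt N F₀ F) {g : Gal(AlgebraicClosure K/K)} {y : N ≃ₐ[F] N}
    (hy : rsc K F N y = rN N ⟨g, mem_bt g⟩) :
    ∃ hg : g ∈ F₀.fixingSubgroup, rF h ⟨g, hg⟩ = y := by
  have h1 : ∀ x : N, ((y x : N) : AlgebraicClosure K) = g x := by
    intro x
    rw [← rN_apply ⟨g, mem_bt g⟩ x, ← hy]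
    rfl
  have h2 : g ∈ F₀.fixingSubgroup := by
    rw [IntermediateField.mem_fixingSubgroup_iff]
    intro x hx
    have h3 := h1 ⟨x, h.le hx⟩
    have h4 : (⟨x, h.le hx⟩ : N) ∈ F := (h.mem _).2 hx
    have h5 : y (⟨x, h.le hx⟩ : N) = ⟨x, h.le hx⟩ := y.commutes ⟨_, h4⟩
    rw [h5] at h3
    exact h3.symm
  refine ⟨h2, ?_⟩
  ext x
  rw [rF_apply, h1]

theorem rF_surjective (h : Mt N F₀ F) : Function.Surjective (rF h) := by
  intro y
  obtain ⟨g, hg⟩ := rN_surjective (rsc K F N y)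
  obtain ⟨h1, h2⟩ := mem_of_rN h (g := g) hg.symm
  exact ⟨_, h2⟩

theorem rF_eq_one (h : Mt N F₀ F) (g : F₀.fixingSubgroup) :
    rF h g = 1 ↔ (g : Gal(AlgebraicClosure K/K)) ∈ N.fixingSubgroup := by
  rw [IntermediateField.mem_fixingSubgroup_iff]
  constructor
  · intro h1 x hx
    have h2 := rF_apply h g ⟨x, hx⟩
    rw [h1] at h2
    exact h2.symm
  · intro h1
    ext x
    rw [rF_apply, h1 _ x.2]
    rfl

/-- **Induction at the two levels.** -/
theorem ind_match (h : Mt N F₀ F) {f : (N ≃ₐ[F] N) → ℂ} (hf : ∀ x y, f (x⁻¹ * y * x) = f y) :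
    Pool.Agent.Q246.BI.induced (bt K) F₀ (fun g => f (rF h g)) =
      fun g => indj (rsc K F N) f (rN N g) := by
  classical
  funext g
  let H : Subgroup (N ≃ₐ[K] N) := (rsc K F N).range
  have hex : ∀ z : H, ∃ y : N ≃ₐ[F] N, rsc K F N y = z := fun z => z.2
  let f' : H → ℂ := fun z => f (hex z).choose
  have hf' : ∀ (y : N ≃ₐ[F] N) (hy : rsc K F N y ∈ H), f' ⟨rsc K F N y, hy⟩ = f y := by
    intro y hy
    have h1 := (hex ⟨rsc K F N y, hy⟩).choose_spec
    change f (hex ⟨rsc K F N y, hy⟩).choose = f y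
    rw [rsc_injective h1]
  have h1 := Pool.Agent.Q246.BI.ind_coset (rN N) rN_surjective H f' (fun a b => by
    obtain ⟨a, ⟨a, rfl⟩⟩ := a
    obtain ⟨b, ⟨b, rfl⟩⟩ := b
    rw [hf' a ⟨a, rfl⟩]
    have h2 : (⟨rsc K F N b, ⟨b, rfl⟩⟩⁻¹ * ⟨rsc K F N a, ⟨a, rfl⟩⟩ *
        ⟨rsc K F N b, ⟨b, rfl⟩⟩ : H) = ⟨rsc K F N (b⁻¹ * a * b), ⟨_, rfl⟩⟩ := by
      have h3 : (rsc K F N b)⁻¹ * rsc K F N a * rsc K F N b = rsc K F N (b⁻¹ * a * b) := by
        rw [map_mul, map_mul, map_inv]
      exact Subtype.ext h3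
    rw [h2, hf' _ ⟨_, rfl⟩, hf]) (Pool.Agent.Q20.LG.HH (bt K) F₀) (fun v => by
      constructor
      · intro hv
        have h3 : (v : Gal(AlgebraicClosure K/K)) ∈ F₀.fixingSubgroup := hv
        exact ⟨rF h ⟨v, h3⟩, rsc_rF h _⟩
      · rintro ⟨y, hy⟩
        obtain ⟨h3, -⟩ := mem_of_rN h (g := (v : Gal(AlgebraicClosure K/K))) hy
        exact h3) g
  have h2 : Pool.Agent.Q246.BI.Ind H f' (rN N g) = indj (rsc K F N) f (rN N g) := by
    unfold indj
    rw [Pool.Agent.Q246.BI.ind_eq]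
    have hcard : (Nat.card H : ℂ) = (Nat.card (N ≃ₐ[F] N) : ℂ) := by
      congr 1
      exact (Nat.card_congr (MonoidHom.ofInjective (f := rsc K F N) rsc_injective).toEquiv).symm
    rw [hcard]
    congr 1
    refine Finset.sum_congr rfl fun x _ => ?_
    by_cases hx : x⁻¹ * rN N g * x ∈ H
    · rw [Pool.Agent.Q246.BI.ext_mem hx]
      obtain ⟨y, hy⟩ := hx
      have h7 : ∀ z : N ≃ₐ[F] N, (rsc K F N z = x⁻¹ * rN N g * x) ↔ z = y := by
        intro z
        rw [← hy]
        exact ⟨fun e => rsc_injective e, fun e => by rw [e]⟩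
      simp only [h7]
      rw [Finset.sum_ite_eq' Finset.univ, if_pos (Finset.mem_univ _), ← hf' y ⟨y, rfl⟩]
      congr 1
      exact Subtype.ext hy.symm
    · rw [Pool.Agent.Q246.BI.ext_not_mem hx]
      refine (Finset.sum_eq_zero fun z _ => if_neg fun e => hx ?_).symm
      exact ⟨z, e⟩
  rw [← h2, ← h1]
  unfold Pool.Agent.Q246.BI.induced
  refine finsum_congr fun x => ?_
  by_cases hx : ((x.out⁻¹ * g * x.out : (bt K).fixingSubgroup) : Gal(AlgebraicClosure K/K)) ∈
      F₀.fixingSubgroup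
  · rw [dif_pos hx]
    have hx' : rN N (x.out⁻¹ * g * x.out) ∈ H := ⟨rF h ⟨_, hx⟩, rsc_rF h _⟩
    rw [Pool.Agent.Q246.BI.ext_mem hx']
    change f (rF h ⟨_, hx⟩) = _
    rw [← hf' (rF h ⟨_, hx⟩) ⟨_, rfl⟩]
    congr 1
  · rw [dif_neg hx, Pool.Agent.Q246.BI.ext_not_mem]
    rintro ⟨y, hy⟩
    obtain ⟨h3, -⟩ := mem_of_rN h
      (g := ((x.out⁻¹ * g * x.out : (bt K).fixingSubgroup) : Gal(AlgebraicClosure K/K))) hy
    exact hx h3

end

end Pool.Agent.Q20.RS
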