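import Pool.Agent.Q20.RS.Rep

/-!
# The regulators as a homomorphism on virtual characters
-/

set_option autoImplicit false
set_option linter.unusedSectionVars false

namespace Pool.Agent.Q20.RS

open Representation (IntertwiningMap)
open Module (finrank)
open Module.End (maxGenEigenspace)

section ind
variable {H Γ : Type} [Group H] [Fintype H] [Group Γ] [Fintype Γ]

open scoped Classical in
/-- the function on `Γ` induced by a function on `H`, `j : H → Γ` -/
noncomputable def indj (j : H →* Γ) (f : H → ℂ) (g : Γ) : ℂ :=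
  (Nat.card H : ℂ)⁻¹ * ∑ x : Γ, ∑ h : H, if j h = x⁻¹ * g * x then f h else 0

theorem indj_pair (j : H →* Γ) (f : H → ℂ) {t : Γ → ℂ} (ht : ∀ x g, t (x * g * x⁻¹) = t g) :
    (Nat.card Γ : ℂ)⁻¹ * ∑ g : Γ, indj j f g * t g =
      (Nat.card H : ℂ)⁻¹ * ∑ h : H, f h * t (j h) := by
  classical
  have h1 : ∑ g : Γ, indj j f g * t g =
      (Nat.card H : ℂ)⁻¹ * ∑ x : Γ, ∑ h : H, f h * t (j h) := by
    unfold indj
    have h2 : ∀ g : Γ, (Nat.card H : ℂ)⁻¹ * (∑ x : Γ, ∑ h : H,
        if j h = x⁻¹ * g * x then f h else 0) * t g =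
        (Nat.card H : ℂ)⁻¹ * ∑ x : Γ, ∑ h : H,
          if j h = x⁻¹ * g * x then f h * t g else 0 := by
      intro g
      rw [mul_assoc, Finset.sum_mul]
      congr 1
      refine Finset.sum_congr rfl fun x _ => ?_
      rw [Finset.sum_mul]
      exact Finset.sum_congr rfl fun h _ => by rw [ite_mul, zero_mul]
    rw [Finset.sum_congr rfl fun g _ => h2 g, ← Finset.mul_sum, Finset.sum_comm]
    congr 1
    refine Finset.sum_congr rfl fun x _ => ?_
    rw [Finset.sum_comm]
    refine Finset.sum_congr rfl fun h _ => ?_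
    have h3 : ∀ g : Γ, (j h = x⁻¹ * g * x) ↔ g = x * j h * x⁻¹ := by
      intro g
      constructor
      · intro e
        rw [e]
        group
      · rintro rfl
        group
    simp only [h3]
    rw [Finset.sum_ite_eq' Finset.univ, if_pos (Finset.mem_univ _), ht]
  rw [h1, Finset.sum_const, Finset.card_univ, nsmul_eq_mul, Nat.card_eq_fintype_card]
  have h0 : (Fintype.card Γ : ℂ) ≠ 0 := by exact_mod_cast Fintype.card_ne_zero
  field_simp

end ind

section
variable {Γ : Type} [Group Γ] [Fintype Γ] {V : Type} [AddCommGroup V] [Module ℂ V]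
  [FiniteDimensional ℂ V] {X : Representation ℂ Γ V}

/-- the multiplicity of `μ` in a class function -/
noncomputable def cm (θ : IntertwiningMap X X) (f : Γ → ℂ) (μ : ℂ) : ℂ :=
  (Nat.card Γ : ℂ)⁻¹ * ∑ g : Γ, f g * (eig θ μ).toRepresentation.character g

theorem cm_add (θ : IntertwiningMap X X) (f f' : Γ → ℂ) (μ : ℂ) :
    cm θ (f + f') μ = cm θ f μ + cm θ f' μ := by
  unfold cm
  rw [← mul_add, ← Finset.sum_add_distrib]
  congr 1
  exact Finset.sum_congr rfl fun g _ => by rw [Pi.add_apply, add_mul]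

theorem cm_neg (θ : IntertwiningMap X X) (f : Γ → ℂ) (μ : ℂ) : cm θ (-f) μ = -cm θ f μ := by
  unfold cm
  rw [← mul_neg, ← Finset.sum_neg_distrib]
  congr 1
  exact Finset.sum_congr rfl fun g _ => by rw [Pi.neg_apply, neg_mul]

/-- the class functions with integral multiplicities -/
noncomputable def PR (θ : IntertwiningMap X X) : AddSubgroup (Γ → ℂ) where
  carrier := {f | ∀ μ, ∃ k : ℤ, cm θ f μ = k}
  add_mem' := fun {a b} ha hb μ => by
    obtain ⟨k, hk⟩ := ha μ
    obtain ⟨l, hl⟩ := hb μ
    exact ⟨k + l, by rw [cm_add, hk, hl]; push_cast; rfl⟩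
  zero_mem' := fun μ => ⟨0, by unfold cm; simp⟩
  neg_mem' := fun {a} ha μ => by
    obtain ⟨k, hk⟩ := ha μ
    exact ⟨-k, by rw [cm_neg, hk]; push_cast; rfl⟩

/-- the integral multiplicity -/
noncomputable def im (θ : IntertwiningMap X X) (f : PR θ) (μ : ℂ) : ℤ := (f.2 μ).choose

theorem im_spec (θ : IntertwiningMap X X) (f : PR θ) (μ : ℂ) : cm θ f.1 μ = im θ f μ :=
  (f.2 μ).choose_spec

theorem im_add (θ : IntertwiningMap X X) (f f' : PR θ) (μ : ℂ) :
    im θ (f + f') μ = im θ f μ + im θ f' μ := by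
  have h : ((im θ (f + f') μ : ℤ) : ℂ) = ((im θ f μ + im θ f' μ : ℤ) : ℂ) := by
    rw [← im_spec]
    push_cast
    rw [← im_spec, ← im_spec]
    exact cm_add θ _ _ _
  exact_mod_cast h

open scoped Classical in
/-- a nonzero value -/
noncomputable def nz (z : ℂ) : ℂˣ := if h : z = 0 then 1 else Units.mk0 z h

/-- the spectrum -/
noncomputable def spc (θ : IntertwiningMap X X) : Finset ℂ :=
  (LinearMap.charpoly (θ.toLinearMap : Module.End ℂ V)).roots.toFinset

/-- the regulator of a class function -/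
noncomputable def PhiR (θ : IntertwiningMap X X) : PR θ →+ Additive ℂˣ where
  toFun := fun f => Additive.ofMul (∏ μ ∈ spc θ, nz μ ^ im θ f μ)
  map_zero' := by
    have h : ∀ μ, im θ (0 : PR θ) μ = 0 := fun μ => by
      have h1 := im_add θ 0 0 μ
      rw [add_zero] at h1
      omega
    have h2 : ∏ μ ∈ spc θ, nz μ ^ im θ (0 : PR θ) μ = 1 :=
      Finset.prod_eq_one fun μ _ => by rw [h, zpow_zero]
    rw [h2]
    rfl
  map_add' := fun f f' => by
    rw [← ofMul_mul, ← Finset.prod_mul_distrib]
    congr 1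
    exact Finset.prod_congr rfl fun μ _ => by rw [im_add, zpow_add]

theorem mem_spc {θ : IntertwiningMap X X} {μ : ℂ} :
    μ ∈ spc θ ↔ (eig θ μ).toSubmodule ≠ ⊥ := by
  classical
  unfold spc
  rw [Multiset.mem_toFinset, Polynomial.mem_roots (LinearMap.charpoly_monic _).ne_zero,
    ← Module.End.hasEigenvalue_iff_isRoot_charpoly]
  constructor
  · intro h h1
    obtain ⟨v, hv⟩ := h.exists_hasEigenvector
    have h2 : v ∈ (eig θ μ).toSubmodule :=
      Module.End.genEigenspace_le_maximal θ.toLinearMap μ 1 hv.1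
    rw [h1, Submodule.mem_bot] at h2
    exact hv.2 h2
  · intro h
    by_contra h1
    apply h
    have h2 : maxGenEigenspace θ.toLinearMap μ = ⊥ := by
      have h3 : ¬ Module.End.HasUnifEigenvalue θ.toLinearMap μ 1 := h1
      by_contra h4
      exact h3 (Module.End.HasUnifEigenvalue.lt one_pos h4)
    exact h2

variable {H : Type} [Group H] [Fintype H] {U : Type} [AddCommGroup U] [Module ℂ U]
  [FiniteDimensional ℂ U]

/-- restriction of an endomorphism of a representation to a subgroup -/
noncomputable def resI (j : H →* Γ) (θ : IntertwiningMap X X) :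
    IntertwiningMap (MonoidHom.comp X j : Representation ℂ H V) (MonoidHom.comp X j) :=
  ⟨θ.toLinearMap, fun h => θ.isIntertwining' (j h)⟩

theorem mlt_ind (j : H →* Γ) (θ : IntertwiningMap X X) (ρ : Representation ℂ H U) (μ : ℂ) :
    (mlt ρ.dual (resI j θ) μ : ℂ) = cm θ (indj j ρ.character) μ := by
  rw [mlt_char]
  unfold cm
  rw [indj_pair j ρ.character (t := (eig θ μ).toRepresentation.character)
    (fun x g => Representation.char_conj _ _ _)]
  congr 1
  refine Finset.sum_congr rfl fun h _ => ?_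
  rw [Representation.char_dual, inv_inv, mul_comm]
  rfl

theorem ind_mem (j : H →* Γ) (θ : IntertwiningMap X X) (ρ : Representation ℂ H U) :
    indj j ρ.character ∈ PR θ := fun μ => ⟨mlt ρ.dual (resI j θ) μ, by
  rw [← mlt_ind]
  push_cast
  rfl⟩

/-- **The regulators are given by the homomorphism.** -/
theorem regul_eq (j : H →* Γ) {θ : IntertwiningMap X X} (hθ : Function.Bijective θ)
    (ρ : Representation ℂ H U) :
    regul ρ (MonoidHom.comp X j) (resI j θ) =
      ((PhiR θ ⟨indj j ρ.character, ind_mem j θ ρ⟩).toMul : ℂˣ) := by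
  classical
  change LinearMap.det (post ρ.dual (MonoidHom.comp X j) (resI j θ)) = _
  have him : ∀ μ, im θ ⟨indj j ρ.character, ind_mem j θ ρ⟩ μ = mlt ρ.dual (resI j θ) μ := by
    intro μ
    have h : ((im θ ⟨indj j ρ.character, ind_mem j θ ρ⟩ μ : ℤ) : ℂ) =
        ((mlt ρ.dual (resI j θ) μ : ℤ) : ℂ) := by
      rw [← im_spec]
      push_cast
      exact (mlt_ind j θ ρ μ).symm
    exact_mod_cast h
  have hsub : (post ρ.dual (MonoidHom.comp X j) (resI j θ)).charpoly.roots.toFinset ⊆ spc θ := by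
    intro μ hμ
    rw [Multiset.mem_toFinset, ← Multiset.count_pos, Polynomial.count_roots, ← mlt_eq] at hμ
    rw [mem_spc]
    intro h
    have h1 : Subsingleton (eig (resI j θ) μ).toSubmodule := by
      have h2 : (eig (resI j θ) μ).toSubmodule = ⊥ := h
      rw [h2]
      infer_instance
    have h3 : Subsingleton (IntertwiningMap ρ.dual (eig (resI j θ) μ).toRepresentation) :=
      ⟨fun a b => DFunLike.ext _ _ fun u => Subsingleton.elim _ _⟩
    have h4 : mlt ρ.dual (resI j θ) μ = 0 := Module.finrank_zero_of_subsingleton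
    omega
  rw [det_post ρ.dual (resI j θ) hsub]
  change _ = ((∏ μ ∈ spc θ, nz μ ^ im θ ⟨indj j ρ.character, ind_mem j θ ρ⟩ μ : ℂˣ) : ℂ)
  rw [Units.coe_prod]
  refine Finset.prod_congr rfl fun μ hμ => ?_
  have hμ0 : μ ≠ 0 := by
    rintro rfl
    rw [mem_spc] at hμ
    apply hμ
    rw [Submodule.eq_bot_iff]
    intro v hv
    have h1 : v ∈ maxGenEigenspace θ.toLinearMap 0 := hv
    rw [Module.End.mem_maxGenEigenspace] at h1
    obtain ⟨k, hk⟩ := h1
    rw [zero_smul, sub_zero] at hk
    have h2 : ∀ k : ℕ, Function.Injective ((θ.toLinearMap : Module.End ℂ V) ^ k) := by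
      intro k
      induction k with
      | zero => exact fun a b h => h
      | succ k ih =>
        rw [pow_succ]
        exact fun a b h => hθ.1 (ih h)
    exact h2 k (by rw [hk, map_zero])
  rw [him, zpow_natCast, Units.val_pow_eq_pow_val]
  unfold nz
  rw [dif_neg hμ0, Units.val_mk0]

end

end Pool.Agent.Q20.RS
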