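import Pool.Agent.Q20.RS.Def

/-!
# Determinants on spaces of homomorphisms
-/

set_option autoImplicit false
set_option linter.unusedSectionVars false

namespace Pool.Agent.Q20.RS

open Representation (IntertwiningMap)
open Module (finrank)
open Module.End (maxGenEigenspace)

section
variable {G : Type} [Group G] {U V : Type} [AddCommGroup U] [Module ℂ U] [AddCommGroup V]
  [Module ℂ V] (ρ : Representation ℂ G U) (X : Representation ℂ G V)

/-- composition with an endomorphism -/
noncomputable def post (θ : IntertwiningMap X X) : Module.End ℂ (IntertwiningMap ρ X) :=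
  IntertwiningMap.llcomp ρ X X θ

variable {ρ X}

theorem post_apply (θ : IntertwiningMap X X) (f : IntertwiningMap ρ X) (u : U) :
    post ρ X θ f u = θ (f u) := rfl

theorem post_pow (θ : IntertwiningMap X X) (μ : ℂ) (k : ℕ) (f : IntertwiningMap ρ X) (u : U) :
    (((post ρ X θ - μ • (1 : Module.End ℂ (IntertwiningMap ρ X))) ^ k) f) u =
      ((θ.toLinearMap - μ • (1 : Module.End ℂ V)) ^ k) (f u) := by
  induction k generalizing f with
  | zero => rfl
  | succ k ih =>
    rw [pow_succ, pow_succ, Module.End.mul_apply, Module.End.mul_apply, ih]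
    rfl

/-- the generalized eigenspaces as subrepresentations -/
noncomputable def eig (θ : IntertwiningMap X X) (μ : ℂ) : Subrepresentation X where
  toSubmodule := maxGenEigenspace θ.toLinearMap μ
  apply_mem_toSubmodule := fun g v hv => by
    rw [Module.End.mem_maxGenEigenspace] at hv ⊢
    obtain ⟨k, hk⟩ := hv
    refine ⟨k, ?_⟩
    have h : ∀ (k : ℕ) (v : V), ((θ.toLinearMap - μ • (1 : Module.End ℂ V)) ^ k) (X g v) =
        X g (((θ.toLinearMap - μ • (1 : Module.End ℂ V)) ^ k) v) := by
      intro k
      induction k with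
      | zero => exact fun _ => rfl
      | succ k ih =>
        intro v
        rw [pow_succ, Module.End.mul_apply, Module.End.mul_apply, ← ih]
        congr 1
        change θ (X g v) - μ • X g v = X g (θ v - μ • v)
        rw [map_sub, map_smul, ← θ.isIntertwining]
    rw [h, hk, map_zero]

variable [FiniteDimensional ℂ V]

theorem mem_post (θ : IntertwiningMap X X) (μ : ℂ) (f : IntertwiningMap ρ X) :
    f ∈ maxGenEigenspace (post ρ X θ) μ ↔ ∀ u, f u ∈ (eig θ μ).toSubmodule := by
  rw [Module.End.mem_maxGenEigenspace]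
  constructor
  · rintro ⟨k, hk⟩ u
    change f u ∈ maxGenEigenspace θ.toLinearMap μ
    rw [Module.End.mem_maxGenEigenspace]
    refine ⟨k, ?_⟩
    rw [← post_pow, hk]
    rfl
  · intro h
    refine ⟨finrank ℂ V, ?_⟩
    apply DFunLike.ext
    intro u
    have h1 : f u ∈ maxGenEigenspace θ.toLinearMap μ := h u
    rw [Module.End.maxGenEigenspace_eq_genEigenspace_finrank, Module.End.mem_genEigenspace_nat] at h1
    rw [post_pow]
    exact h1

/-- the generalized eigenspaces of the composition -/
noncomputable def eigEquiv (ρ : Representation ℂ G U) (θ : IntertwiningMap X X) (μ : ℂ) :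
    maxGenEigenspace (post ρ X θ) μ ≃ₗ[ℂ] IntertwiningMap ρ (eig θ μ).toRepresentation where
  toFun := fun f => ⟨f.1.toLinearMap.codRestrict (eig θ μ).toSubmodule ((mem_post θ μ f.1).1 f.2),
    fun g => by
      ext u
      exact IntertwiningMap.isIntertwining _ _ f.1 g u⟩
  map_add' := fun _ _ => rfl
  map_smul' := fun _ _ => rfl
  invFun := fun f => ⟨⟨(eig θ μ).toSubmodule.subtype.comp f.toLinearMap, fun g => by
      ext u
      exact congrArg Subtype.val (IntertwiningMap.isIntertwining _ _ f g u)⟩,
    (mem_post θ μ _).2 fun u => (f u).2⟩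
  left_inv := fun _ => rfl
  right_inv := fun _ => rfl

variable [FiniteDimensional ℂ U]

instance fin_hom : FiniteDimensional ℂ (IntertwiningMap ρ X) :=
  FiniteDimensional.of_injective
    ({ toFun := fun f => f.toLinearMap, map_add' := fun _ _ => rfl, map_smul' := fun _ _ => rfl } :
      IntertwiningMap ρ X →ₗ[ℂ] (U →ₗ[ℂ] V)) (IntertwiningMap.toLinearMap_injective _ _)

/-- the multiplicity of `μ` -/
noncomputable def mlt (ρ : Representation ℂ G U) (θ : IntertwiningMap X X) (μ : ℂ) : ℕ :=
  finrank ℂ (IntertwiningMap ρ (eig θ μ).toRepresentation)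

theorem mlt_eq (ρ : Representation ℂ G U) (θ : IntertwiningMap X X) (μ : ℂ) :
    mlt ρ θ μ = (post ρ X θ).charpoly.rootMultiplicity μ := by
  rw [← LinearMap.finrank_maxGenEigenspace_eq]
  exact (eigEquiv ρ θ μ).finrank_eq.symm

open scoped Classical in
/-- the determinant is the product of the eigenvalues -/
theorem det_post (ρ : Representation ℂ G U) (θ : IntertwiningMap X X) {s : Finset ℂ}
    (hs : (post ρ X θ).charpoly.roots.toFinset ⊆ s) :
    LinearMap.det (post ρ X θ) = ∏ μ ∈ s, μ ^ mlt ρ θ μ := by
  rw [Module.End.det_eq_prod_roots_charpoly_of_splits (IsAlgClosed.splits _),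
    Finset.prod_multiset_count_of_subset _ _ hs]
  refine Finset.prod_congr rfl fun μ _ => ?_
  rw [mlt_eq, Polynomial.count_roots]

/-- the multiplicity from the characters -/
theorem mlt_char [Fintype G] (ρ : Representation ℂ G U) (θ : IntertwiningMap X X) (μ : ℂ) :
    (mlt ρ θ μ : ℂ) = (Nat.card G : ℂ)⁻¹ *
      ∑ g : G, (eig θ μ).toRepresentation.character g * ρ.character g⁻¹ := by
  have h0 : (Nat.card G : ℂ) ≠ 0 := by exact_mod_cast Nat.card_pos.ne'
  let _ : Invertible (Nat.card G : ℂ) := invertibleOfNonzero h0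
  exact (Representation.card_inv_mul_sum_char_mul_char_eq_finrank ρ
    (eig θ μ).toRepresentation).symm

end

end Pool.Agent.Q20.RS
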